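import Pool.Agent.U115.TP.Sel
import Pool.Agent.U115.TP.Hom
import Pool.Agent.Y31.XF.Inz

/-!
# The rank and the 2-torsion of the Tate-Shafarevich group
-/

set_option autoImplicit false
set_option linter.style.haveILetI false

attribute [-instance] DivisionRing.toRatAlgebra

open NumberField IsDedekindDomain

namespace Pool.Agent.U115.TP

open Pool.Agent.Y682
open Pool.Agent.TH841.NF.D (rk Sha)
open Pool.Agent.Y700 (WM)

open scoped Classical

/-- a rational number is a squarefree integer times a square -/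
theorem exists_sqf (b : ℚ) (hb : b ≠ 0) : ∃ (d : ℤ) (t : ℚ), Squarefree d ∧ t ≠ 0 ∧
    b = d * t ^ 2 := by
  have hn : b.num ≠ 0 := Rat.num_ne_zero.2 hb
  have hd : (b.den : ℤ) ≠ 0 := by exact_mod_cast b.den_ne_zero
  obtain ⟨a, c, hac, hsf⟩ := Nat.sq_mul_squarefree (b.num * b.den).natAbs
  have hnd : b.num * b.den ≠ 0 := mul_ne_zero hn hd
  have h1 : b.num * b.den = ((b.num * b.den).sign * a) * (c : ℤ) ^ 2 := by
    have h2 := Int.sign_mul_natAbs (b.num * b.den)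
    rw [← hac] at h2
    push_cast at h2
    linear_combination -h2
  have hc0 : (c : ℤ) ≠ 0 := by
    intro h
    rw [h] at h1
    apply hnd
    rw [h1]; ring
  refine ⟨(b.num * b.den).sign * a, (c : ℚ) / b.den, ?_, ?_, ?_⟩
  · rw [← Int.squarefree_natAbs, Int.natAbs_mul, Int.natAbs_sign_of_ne_zero hnd, one_mul,
      Int.natAbs_natCast]
    exact hsf
  · exact div_ne_zero (by exact_mod_cast hc0) (by exact_mod_cast b.den_ne_zero)
  · have hdq : (b.den : ℚ) ≠ 0 := by exact_mod_cast b.den_ne_zero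
    have h2 : (b.num : ℚ) * b.den = (((b.num * b.den).sign * a : ℤ) : ℚ) * (c : ℚ) ^ 2 := by
      exact_mod_cast h1
    rw [div_pow, mul_div_assoc', ← h2]
    have h3 : b * b.den = b.num := Rat.mul_den_eq_num b
    field_simp
    linear_combination h3

theorem map_rat {R : Type*} [DivisionRing R] [CharZero R] {F : Type*} [Field F] [Algebra ℚ F]
    (e : F →+* R) (q : ℚ) : e (algebraMap ℚ F q) = (q : R) := by
  have : e.comp (algebraMap ℚ F) = Rat.castHom R := RingHom.ext_rat _ _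
  exact congrArg (fun f : ℚ →+* R => f q) this

/-- the first conditions -/
theorem lsol_of_LL1 {A B d : ℤ} {b t : ℚ} (ht : t ≠ 0) (hb : b = d * t ^ 2) (hd : Squarefree d)
    (h : LL1 (A : ℚ) (B : ℚ) b) (l : ℕ) [Fact l.Prime] : LSol A B d l := by
  obtain ⟨v, ⟨e⟩⟩ := exists_hom l
  obtain ⟨z, m, hz, hzm, hm⟩ := h.1 v
  have hz' : e z ≠ 0 := (map_ne_zero e).2 hz
  have ht' : (t : ℚ_[l]) ≠ 0 := by exact_mod_cast ht
  have h1 : ((b : ℚ) : ℚ_[l]) * (e z) ^ 2 = e m := by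
    rw [← hzm, map_mul, map_pow, map_rat]
  refine lsol_of hd (z := (t : ℚ_[l]) * e z) (m := e m) (mul_ne_zero ht' hz') ?_ ?_
  · rw [← h1, hb]
    push_cast
    ring
  · rcases hm with h2 | h2 | ⟨h2, y, hy⟩
    · exact Or.inl (by rw [h2, map_one])
    · refine Or.inr (Or.inl ?_)
      rw [h2, map_rat]
      push_cast
      rfl
    · refine Or.inr (Or.inr ⟨(map_ne_zero e).2 h2, e y, ?_⟩)
      rw [← map_pow, hy]
      simp only [map_mul, map_add, map_pow, map_rat]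
      push_cast
      ring

/-- the second conditions -/
theorem lsol_of_LL2 {A B A' B' d : ℤ} {b t : ℚ} (ht : t ≠ 0) (hb : b = d * t ^ 2)
    (hd : Squarefree d) (h : LL2 (A : ℚ) (B : ℚ) b) (hA' : A' = -2 * A) (hB' : B' = A ^ 2 - 4 * B)
    (l : ℕ) [Fact l.Prime] : LSol A' B' d l := by
  obtain ⟨v, ⟨e⟩⟩ := exists_hom l
  obtain ⟨z, m, hz, hzm, hm⟩ := h.1 v
  have hz' : e z ≠ 0 := (map_ne_zero e).2 hz
  have ht' : (t : ℚ_[l]) ≠ 0 := by exact_mod_cast ht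
  have h1 : ((b : ℚ) : ℚ_[l]) * (e z) ^ 2 = e m := by
    rw [← hzm, map_mul, map_pow, map_rat]
  refine lsol_of hd (z := (t : ℚ_[l]) * e z) (m := e m) (mul_ne_zero ht' hz') ?_ ?_
  · rw [← h1, hb]
    push_cast
    ring
  · rcases hm with h2 | h2 | ⟨h2, y, hy⟩
    · exact Or.inl (by rw [h2, map_one])
    · refine Or.inr (Or.inl ?_)
      rw [h2, hB']
      simp only [map_mul, map_sub, map_pow, map_rat, map_ofNat]
      push_cast
      ring
    · refine Or.inr (Or.inr ⟨(map_ne_zero e).2 h2, e y, ?_⟩)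
      rw [← map_pow, hy, hA', hB']
      simp only [map_mul, map_sub, map_pow, map_rat, map_ofNat]
      push_cast
      ring

variable {m : ℕ} {P : Finset ℕ}

/-- the class of a rational number modulo squares -/
noncomputable def cl (n : ℤ) (hn : (n : ℚ) ≠ 0) : ℚˣ ⧸ Sq ℚ := ((Units.mk0 (n : ℚ) hn : ℚˣ) : ℚˣ ⧸ Sq ℚ)

theorem cl_eq {b : ℚˣ} {d : ℤ} {t : ℚ} (ht : t ≠ 0) (hb : (b : ℚ) = d * t ^ 2)
    (hd : (d : ℚ) ≠ 0) : (b : ℚˣ ⧸ Sq ℚ) = cl d hd := by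
  unfold cl
  rw [eq_comm, quot_eq]
  refine ⟨Units.mk0 t ht, ?_⟩
  apply Units.ext
  rw [Units.val_mul, Units.val_pow_eq_pow_val, Units.val_mk0, Units.val_mk0]
  exact hb

/-- the rank is zero and the 2-torsion of the Tate-Shafarevich group is trivial -/
theorem HP.zero_sha (H : HP m P) {D : ℕ} (hDe : D = (∏ p ∈ P, p) * m) :
    rk (wc (13 * (D : ℚ)) (128 * (D : ℚ) ^ 2)) = 0 ∧
    ∀ y : Sha (wc (13 * (D : ℚ)) (128 * (D : ℚ) ^ 2)), 2 • y = 0 → y = 0 := by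
  have hDz : (D : ℤ) ≠ 0 := by rw [hDe]; exact H.sqf.ne_zero
  have hDq : (D : ℚ) ≠ 0 := by exact_mod_cast hDz
  have hDq2 : (0 : ℚ) < (D : ℚ) ^ 2 := by positivity
  have hDr : (D : ℝ) ≠ 0 := by exact_mod_cast hDz
  have hDR : (0 : ℝ) < (D : ℝ) ^ 2 := by positivity
  have hB : (128 * (D : ℚ) ^ 2) ≠ 0 := mul_ne_zero (by norm_num) hDq2.ne'
  have hDD : (13 * (D : ℚ)) ^ 2 - 4 * (128 * (D : ℚ) ^ 2) ≠ 0 := by
    have : (13 * (D : ℚ)) ^ 2 - 4 * (128 * (D : ℚ) ^ 2) = -343 * (D : ℚ) ^ 2 := by ring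
    rw [this]
    exact mul_ne_zero (by norm_num) hDq2.ne'
  have hT := wc_isT hB hDD
  have eA : (13 * (D : ℚ)) = ((13 * (D : ℤ) : ℤ) : ℚ) := by push_cast; ring
  have eB : (128 * (D : ℚ) ^ 2) = ((128 * (D : ℤ) ^ 2 : ℤ) : ℚ) := by push_cast; ring
  set U : Set (ℚˣ ⧸ Sq ℚ) := {cl 1 (by norm_num), cl 2 (by norm_num)} with hU
  set V : Set (ℚˣ ⧸ Sq ℚ) := {cl 1 (by norm_num), cl (-7) (by norm_num)} with hV
  have hUf : Finite U := (Set.toFinite _).to_subtype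
  have hVf : Finite V := (Set.toFinite _).to_subtype
  have hUc : Nat.card U ≤ 2 := by
    rw [Nat.card_coe_set_eq]
    exact (Set.ncard_insert_le _ _).trans (by rw [Set.ncard_singleton])
  have hVc : Nat.card V ≤ 2 := by
    rw [Nat.card_coe_set_eq]
    exact (Set.ncard_insert_le _ _).trans (by rw [Set.ncard_singleton])
  have h1V : (1 : ℚˣ ⧸ Sq ℚ) ∈ V := by
    rw [hV]
    left
    have h0 := cl_eq (b := 1) (d := 1) (t := 1) one_ne_zero (by push_cast; norm_num) (by norm_num)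
    rw [← h0]
    rfl
  have H1 : ∀ b : ℚˣ, LL1 (13 * (D : ℚ)) (128 * (D : ℚ) ^ 2) (b : ℚ) → (b : ℚˣ ⧸ Sq ℚ) ∈ U := by
    intro b hb
    obtain ⟨d, t, hd, ht, hbd⟩ := exists_sqf (b : ℚ) b.ne_zero
    have hpos : 0 < d := by
      have h1 := pos_b1 hb.2 (Rat.castHom ℝ) (by
          change (0 : ℝ) < ((128 * (D : ℚ) ^ 2 : ℚ) : ℝ)
          push_cast
          linarith) (Or.inr (by
          change ((13 * (D : ℚ) : ℚ) : ℝ) ^ 2 < 4 * ((128 * (D : ℚ) ^ 2 : ℚ) : ℝ)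
          push_cast
          nlinarith))
      have h2 : (0 : ℝ) < ((b : ℚ) : ℝ) := h1
      have h3 : (0 : ℚ) < (b : ℚ) := by exact_mod_cast h2
      rw [hbd] at h3
      have h4 : (0 : ℚ) < t ^ 2 := by positivity
      have h5 : (0 : ℚ) < d := (mul_pos_iff_of_pos_right h4).1 h3
      exact_mod_cast h5
    rw [eA, eB] at hb
    have hcl := H.sel1 hd hpos fun l _ => by
      have := lsol_of_LL1 ht hbd hd hb l
      rw [← hDe]
      exact this
    have hd0 : (d : ℚ) ≠ 0 := by exact_mod_cast hd.ne_zero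
    rw [cl_eq ht hbd hd0, hU]
    rcases hcl with h | h
    · left; subst h; rfl
    · right; subst h; rfl
  have H2 : ∀ b : ℚˣ, LL2 (13 * (D : ℚ)) (128 * (D : ℚ) ^ 2) (b : ℚ) → (b : ℚˣ ⧸ Sq ℚ) ∈ V := by
    intro b hb
    obtain ⟨d, t, hd, ht, hbd⟩ := exists_sqf (b : ℚ) b.ne_zero
    rw [eA, eB] at hb
    have hcl := H.sel2 hd fun l _ => by
      have := lsol_of_LL2 (A' := -26 * (D : ℤ)) (B' := -343 * (D : ℤ) ^ 2) ht hbd hd hb
        (by ring) (by ring) l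
      rw [← hDe]
      exact this
    have hd0 : (d : ℚ) ≠ 0 := by exact_mod_cast hd.ne_zero
    rw [cl_eq ht hbd hd0, hV]
    rcases hcl with h | h
    · left; subst h; rfl
    · right; subst h; rfl
  obtain ⟨hf, hc⟩ := Zc_card (U := U) (V := V) hT h1V H1 H2
  obtain ⟨hf', hl⟩ := Zc_lower hT
  set X := Nat.card {x : Sha (wc (13 * (D : ℚ)) (128 * (D : ℚ) ^ 2)) // 2 • x = 0} with hX
  have hX0 : 0 < X := Nat.card_pos_iff.2 ⟨⟨⟨0, smul_zero 2⟩⟩, hf'⟩
  set r := rk (wc (13 * (D : ℚ)) (128 * (D : ℚ) ^ 2)) with hr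
  have hl' : 4 * 2 ^ r * X ≤ 4 := by
    calc 4 * 2 ^ r * X ≤ _ := hl
      _ ≤ _ := hc
      _ ≤ 2 * 2 := Nat.mul_le_mul hUc hVc
      _ = 4 := by norm_num
  have h2r : 0 < 2 ^ r := by positivity
  have hb' : 2 ^ r * X ≤ 1 := by nlinarith
  have hX1 : X = 1 := by nlinarith
  constructor
  · by_contra h0
    have : 2 ≤ 2 ^ r := by
      calc 2 = 2 ^ 1 := by norm_num
        _ ≤ 2 ^ r := Nat.pow_le_pow_right (by norm_num) (by omega)
    nlinarith
  · intro y hy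
    have h4 := (Nat.card_eq_one_iff_unique.1 hX1).1
    exact congrArg Subtype.val (h4.elim ⟨y, hy⟩ ⟨0, smul_zero 2⟩)

/-- the same for the minimal equation -/
theorem HP.inz (H : HP m P) {D : ℕ} (hDe : D = (∏ p ∈ P, p) * m) :
    Pool.Agent.Y682.XF.rank ℚ (WM (D : ℤ)) = 0 ∧
    ∀ x : Sha (Pool.Agent.Y682.XF.base (WM (D : ℤ)) ℚ), 2 • x = 0 → x = 0 := by
  obtain ⟨hr0, hsha⟩ := H.zero_sha hDe
  have hDmod : D % 4 = 1 := by
    have h1 : (∏ p ∈ P, p) % 4 = 1 := by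
      refine Finset.prod_induction _ (fun n => n % 4 = 1) ?_ (by norm_num) ?_
      · intro a b ha hb
        rw [Nat.mul_mod, ha, hb]
      · intro p hp
        have := (H.pr p hp).2.1
        omega
    rw [hDe, Nat.mul_mod, h1, H.m4]
  obtain ⟨k, hk⟩ : ∃ k : ℤ, (D : ℤ) = 4 * k + 1 := ⟨((D / 4 : ℕ) : ℤ), by omega⟩
  have hkq : (D : ℚ) = 4 * (k : ℚ) + 1 := by exact_mod_cast hk
  rw [hkq] at hr0 hsha
  rw [Pool.Agent.Y31.XF.wm_eq hk]
  obtain ⟨⟨e1⟩, ⟨e2⟩⟩ := Pool.Agent.Y655.XT.s_shavc ℚ _ _ (Pool.Agent.Y31.XF.CV k)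
    (Pool.Agent.Y31.XF.disc_ne k) (Pool.Agent.Y31.XF.cv_eq k)
  constructor
  · exact (Pool.Agent.Y31.XF.fin_eq _ _ e1).trans hr0
  · intro x hx
    have h4 := hsha (e2 x) (by rw [← map_nsmul, hx, map_zero])
    exact (map_eq_zero_iff e2 e2.injective).1 h4

end Pool.Agent.U115.TP
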