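import Pool.Agent.Y687.K2.Main2
import Pool.Agent.Q283.TW.Frob

/-!
# The numbers of points modulo 8 and the roots
-/

set_option autoImplicit false
set_option linter.style.haveILetI false

open Finset

namespace Pool.Agent.U115.TP

open Pool.Agent.Y687
open Pool.Agent.W97.MT (ap E14)

theorem jac_one {p : ℕ} (hp : p.Prime) {a : ℕ} (ha : ¬ p ∣ a) :
    jacobiSym a p = 1 ↔ IsSquare (a : ZMod p) := by
  haveI : Fact p.Prime := ⟨hp⟩
  have h0 : ((a : ℤ) : ZMod p) ≠ 0 := by
    rw [Ne, ZMod.intCast_zmod_eq_zero_iff_dvd, Int.natCast_dvd_natCast]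
    exact ha
  rw [← jacobiSym.legendreSym.to_jacobiSym, legendreSym.eq_one_iff _ h0]
  push_cast
  exact Iff.rfl

theorem jac_pm {p : ℕ} (hp : p.Prime) {a : ℕ} (ha : ¬ p ∣ a) :
    jacobiSym a p = 1 ∨ jacobiSym a p = -1 := by
  refine jacobiSym.eq_one_or_neg_one ?_
  rw [Int.gcd_natCast_natCast, Nat.gcd_comm]
  exact (Nat.Prime.coprime_iff_not_dvd hp).2 ha

/-- the sign `J` and the number `k` with `a_p = 2 + 4 k` decide -/
theorem nn_iff {p : ℕ} {S : Finset ℕ} (hp : Split p) (hS : ∀ q ∈ S, Inert q) {k : ℤ}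
    (hk : ap E14 p - 2 = 4 * k) :
    ¬ 8 ∣ NN (∏ q ∈ S, q) p ↔ (Odd k ↔ IsSquare ((∏ q ∈ S, q : ℕ) : ZMod p)) := by
  have hpp := hp.1
  have p8 := hp.2.1
  have p7 := hp.2.2
  haveI : Fact p.Prime := ⟨hpp⟩
  have hm4 := prod_mod_four hS
  have hpm := split_not_dvd hp hS
  have hrec : jacobiSym p (∏ q ∈ S, q) = jacobiSym ((∏ q ∈ S, q : ℕ) : ℤ) p :=
    jacobiSym.quadratic_reciprocity_one_mod_four (by omega) (Nat.odd_iff.2 (by omega))
  have h1 := cnt_twist 5805 (-285714) (∏ q ∈ S, q) p (by omega) hm4 hpm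
  rw [cnt_E14 p hpp (by omega) (by rintro rfl; omega), hrec] at h1
  have h2 : (8 ∣ NN (∏ q ∈ S, q) p) ↔ (8 : ℤ) ∣ 1 + p - (jacobiSym ((∏ q ∈ S, q : ℕ) : ℤ) p) *
      ap E14 p := by
    rw [← h1, ← Int.natCast_dvd_natCast]
    unfold NN
    push_cast
    have h3 : ∀ P C : ℤ, 1 + P - (P - C) = C + 1 := fun P C => by ring
    rw [h3]
  rw [h2, ← jac_one hpp hpm]
  rcases jac_pm hpp hpm with hj | hj
  · rw [hj, one_mul]
    constructor
    · intro h
      refine ⟨fun _ => rfl, fun _ => ?_⟩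
      rw [Int.odd_iff]
      omega
    · intro h h8
      have := h.2 rfl
      rw [Int.odd_iff] at this
      omega
  · rw [hj]
    constructor
    · intro h
      refine ⟨fun ho => ?_, fun h' => by norm_num at h'⟩
      rw [Int.odd_iff] at ho
      omega
    · intro h h8
      have hno : ¬ Odd k := fun ho => by
        have := h.1 ho
        norm_num at this
      rw [Int.not_odd_iff_even, Int.even_iff] at hno
      omega

/-- the roots decide the number of the points of `X_0(14)` -/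
theorem odd_iff_rt {p : ℕ} (hp : Split p) {k : ℤ} (hk : ap E14 p - 2 = 4 * k) :
    Odd k ↔ Rt p 1 := by
  have hpp := hp.1
  have p8 := hp.2.1
  have p7 := hp.2.2
  haveI : Fact p.Prime := ⟨hpp⟩
  have hempty : ∀ q ∈ (∅ : Finset ℕ), Inert q := fun q hq => absurd hq (Finset.notMem_empty q)
  constructor
  · intro h
    have h1 := (nn_iff (S := ∅) hp hempty hk).2
      ⟨fun _ => by rw [Finset.prod_empty]; exact ⟨1, by norm_num⟩, fun _ => h⟩
    have h2 := (split_facts hp hempty h1).2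
    rwa [Finset.prod_empty] at h2
  · intro hR
    by_contra hno
    obtain ⟨q, hq, -, hq8⟩ := (infinite_q (p := p) (S := ∅) hp hempty).nonempty
    have hq8' : ¬ 8 ∣ NN (∏ r ∈ insert q (∅ : Finset ℕ), r) p := hq8
    have hS1 : ∀ r ∈ insert q (∅ : Finset ℕ), Inert r := by
      intro r hr
      rw [Finset.mem_insert] at hr
      rcases hr with rfl | hr
      · exact hq
      · exact absurd hr (Finset.notMem_empty r)
    have h1 := (nn_iff hp hS1 hk).1 hq8'
    have h2 := (split_facts hp hS1 hq8').2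
    rw [Finset.prod_insert (Finset.notMem_empty q), Finset.prod_empty, mul_one] at h1 h2
    have hnsq : ¬ IsSquare ((q : ℕ) : ZMod p) := fun h => hno (h1.2 h)
    -- a root
    obtain ⟨δ, hδ⟩ := (sq_seven p (by omega) (by omega)).2 p7
    have n2 : (2 : ZMod p) ≠ 0 := by
      have := prime_cast_ne hpp 2 Nat.prime_two (by omega)
      exact_mod_cast this
    set x : ZMod p := (-13 + 7 * δ) / 2 with hx
    have hx2 : x ^ 2 + 13 * x + 128 = 0 := by
      rw [hx]
      field_simp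
      linear_combination (-49 : ZMod p) * hδ
    have k1 : ¬ IsSquare x := hR x (by push_cast; linear_combination hx2)
    have k2 : ¬ IsSquare ((q : ZMod p) * x) := h2 _ (by
      linear_combination (q : ZMod p) ^ 2 * hx2)
    apply k2
    have hchar : ringChar (ZMod p) ≠ 2 := by
      rw [ZMod.ringChar_zmod_n]; omega
    have hx0 : x ≠ 0 := by
      intro h
      exact k1 (by rw [h]; exact ⟨0, by ring⟩)
    have hq0 : (q : ZMod p) ≠ 0 := by
      intro h
      exact hnsq (by rw [h]; exact ⟨0, by ring⟩)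
    have e1 : quadraticChar (ZMod p) x = -1 := quadraticChar_neg_one_iff_not_isSquare.2 k1
    have e2 : quadraticChar (ZMod p) (q : ZMod p) = -1 :=
      quadraticChar_neg_one_iff_not_isSquare.2 hnsq
    rw [← quadraticChar_one_iff_isSquare (mul_ne_zero hq0 hx0), map_mul, e1, e2]
    norm_num

/-- **the numbers of points modulo 8 and the roots** -/
theorem n8_iff {p : ℕ} {S : Finset ℕ} (hp : Split p) (hS : ∀ q ∈ S, Inert q) :
    ¬ 8 ∣ NN (∏ q ∈ S, q) p ↔ (Rt p 1 ↔ IsSquare ((∏ q ∈ S, q : ℕ) : ZMod p)) := by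
  obtain ⟨-, k, hk⟩ := SS_facts p hp.1 hp.2.1 hp.2.2
  rw [nn_iff hp hS hk, odd_iff_rt hp hk]

theorem rt_eq (p m : ℕ) : Rt p m ↔ Pool.Agent.Y700.Rt p m := Iff.rfl

end Pool.Agent.U115.TP
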