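import Pool.Agent.U115.TP.Bound
import Pool.Agent.U115.TP.TPQ
import Pool.Agent.Y682.XF.Uniq

/-!
# The 2-part of the conjecture over `ℚ` and over the fields of odd degree
-/

set_option autoImplicit false
set_option linter.style.haveILetI false

attribute [-instance] DivisionRing.toRatAlgebra

open Finset NumberField

namespace Pool.Agent.U115.TP

open scoped Classical

open Pool.Agent.TH841.NF.D (Sha)
open Pool.Agent.Y700 (WM)
open Pool.Agent.Y687 (Split Inert NN Cond2 Rt split_facts split_notMem split_not_dvd two_sqf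
  prod_mod_four dvd_prod_primes squarefree_prod sq_seven sq_two SS V)
open Pool.Agent.W97.MT (ap E14)

theorem inert_two {S : Finset ℕ} (hS : ∀ q ∈ S, Inert q) : ∀ q : ℕ, q.Prime → q ∣ ∏ q ∈ S, q →
    q ≠ 2 ∧ q ≠ 7 ∧ ¬ IsSquare (-7 : ZMod q) ∧ ¬ IsSquare (2 : ZMod q) := by
  intro q hq hqm
  have hSp : ∀ q ∈ S, q.Prime := fun q hq => (hS q hq).1
  obtain ⟨-, q8, q7⟩ := hS q (dvd_prod_primes hSp hq hqm)
  haveI : Fact q.Prime := ⟨hq⟩
  refine ⟨by omega, by omega, ?_, ?_⟩
  · rw [sq_seven q (by omega) (by omega)]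
    omega
  · rw [sq_two q (by omega)]
    omega

theorem split_pr {p : ℕ} (hp : Split p) : p.Prime ∧ p % 8 = 1 ∧ p ≠ 7 ∧ IsSquare (-7 : ZMod p) := by
  haveI : Fact p.Prime := ⟨hp.1⟩
  have p8 := hp.2.1
  exact ⟨hp.1, hp.2.1, by omega, (sq_seven p (by omega) (by omega)).2 hp.2.2⟩

/-- one split prime -/
theorem hp_one {p : ℕ} {S : Finset ℕ} (hp : Split p) (hS : ∀ q ∈ S, Inert q)
    (hN : ¬ 8 ∣ NN (∏ q ∈ S, q) p) : HP (∏ q ∈ S, q) {p} := by
  refine ⟨prod_mod_four hS, ?_, ?_, inert_two hS, ?_⟩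
  · intro q hq
    rw [mem_singleton] at hq
    subst hq
    exact split_pr hp
  · rw [Finset.prod_singleton, Int.squarefree_natCast, Nat.squarefree_mul_iff]
    exact ⟨(Nat.Prime.coprime_iff_not_dvd hp.1).2 (split_not_dvd hp hS), hp.1.squarefree,
      squarefree_prod fun q hq => (hS q hq).1⟩
  · intro J hJ hJn
    have hJe : J = {p} := (Finset.Nonempty.subset_singleton_iff hJn).1 hJ
    subst hJe
    right
    refine ⟨p, mem_singleton_self p, ?_, (split_facts hp hS hN).2⟩
    rw [Finset.sdiff_self, Finset.prod_empty]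
    exact ⟨1, by norm_num⟩

theorem sq_comm {p1 p2 : ℕ} (h1 : Split p1) (h2 : Split p2) :
    IsSquare (p1 : ZMod p2) ↔ IsSquare (p2 : ZMod p1) := by
  haveI : Fact p1.Prime := ⟨h1.1⟩
  haveI : Fact p2.Prime := ⟨h2.1⟩
  have a1 := h1.2.1
  have a2 := h2.2.1
  exact (ZMod.exists_sq_eq_prime_iff_of_mod_four_eq_one (p := p1) (q := p2) (by omega)
    (by omega)).symm

/-- two split primes -/
theorem hp_two {p1 p2 : ℕ} {S : Finset ℕ} (hne : p1 ≠ p2) (h1 : Split p1) (h2 : Split p2)
    (hS : ∀ q ∈ S, Inert q) (hN : Cond2 p1 p2 (∏ q ∈ S, q)) : HP (∏ q ∈ S, q) {p1, p2} := by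
  have hc12 : IsSquare (p1 : ZMod p2) → Rt p1 (∏ q ∈ S, q) ∧ Rt p2 (∏ q ∈ S, q) := by
    intro h
    rcases hN with ⟨a, b⟩ | ⟨a, b⟩
    · exact ⟨(split_facts h1 hS a).2, (split_facts h2 hS b).2⟩
    · exact absurd h a
  have hcor : Rt p1 (∏ q ∈ S, q) ∨ Rt p2 (∏ q ∈ S, q) := by
    rcases hN with ⟨a, b⟩ | ⟨a, b⟩
    · exact Or.inl (split_facts h1 hS a).2
    · rcases b with b | b
      · exact Or.inl (split_facts h1 hS b).2
      · exact Or.inr (split_facts h2 hS b).2
  refine ⟨prod_mod_four hS, ?_, ?_, inert_two hS, ?_⟩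
  · intro q hq
    rw [mem_insert, mem_singleton] at hq
    rcases hq with rfl | rfl
    · exact split_pr h1
    · exact split_pr h2
  · rw [Finset.prod_pair hne, Int.squarefree_natCast]
    exact two_sqf hne h1 h2 hS
  · intro J hJ hJn
    by_cases k1 : p1 ∈ J
    · by_cases k2 : p2 ∈ J
      · have hJe : J = {p1, p2} := by
          refine Finset.Subset.antisymm hJ ?_
          intro x hx
          rw [mem_insert, mem_singleton] at hx
          rcases hx with rfl | rfl
          · exact k1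
          · exact k2
        subst hJe
        right
        rcases hcor with h | h
        · refine ⟨p1, k1, ?_, h⟩
          rw [Finset.sdiff_self, Finset.prod_empty]
          exact ⟨1, by norm_num⟩
        · refine ⟨p2, k2, ?_, h⟩
          rw [Finset.sdiff_self, Finset.prod_empty]
          exact ⟨1, by norm_num⟩
      · have hJe : J = {p1} := by
          ext x
          rw [mem_singleton]
          constructor
          · intro hx
            have := hJ hx
            rw [mem_insert, mem_singleton] at this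
            rcases this with h | h
            · exact h
            · subst h; exact absurd hx k2
          · rintro rfl
            exact k1
        have hd : ({p1, p2} : Finset ℕ) \ J = {p2} := by
          rw [hJe]
          ext x
          simp only [mem_sdiff, mem_insert, mem_singleton]
          constructor
          · rintro ⟨h | h, h'⟩
            · exact absurd h h'
            · exact h
          · rintro rfl
            exact ⟨Or.inr rfl, fun h => hne h.symm⟩
        rw [hd, hJe, Finset.prod_singleton, Finset.prod_singleton]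
        by_cases hs : IsSquare (p1 : ZMod p2)
        · right
          exact ⟨p1, mem_singleton_self _, (sq_comm h1 h2).1 hs, (hc12 hs).1⟩
        · left
          exact ⟨p2, mem_singleton_self _, hs⟩
    · have k2 : p2 ∈ J := by
        obtain ⟨x, hx⟩ := hJn
        have := hJ hx
        rw [mem_insert, mem_singleton] at this
        rcases this with h | h
        · subst h; exact absurd hx k1
        · subst h; exact hx
      have hJe : J = {p2} := by
        ext x
        rw [mem_singleton]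
        constructor
        · intro hx
          have := hJ hx
          rw [mem_insert, mem_singleton] at this
          rcases this with h | h
          · subst h; exact absurd hx k1
          · exact h
        · rintro rfl
          exact k2
      have hd : ({p1, p2} : Finset ℕ) \ J = {p1} := by
        rw [hJe]
        ext x
        simp only [mem_sdiff, mem_insert, mem_singleton]
        constructor
        · rintro ⟨h | h, h'⟩
          · exact h
          · exact absurd h h'
        · rintro rfl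
          exact ⟨Or.inl rfl, fun h => hne h⟩
      rw [hd, hJe, Finset.prod_singleton, Finset.prod_singleton]
      by_cases hs : IsSquare (p1 : ZMod p2)
      · right
        exact ⟨p2, mem_singleton_self _, hs, (hc12 hs).2⟩
      · left
        exact ⟨p1, mem_singleton_self _, fun h => hs ((sq_comm h1 h2).2 h)⟩

/-- the 2-part over `ℚ` -/
theorem coreQ (H : Pool.Agent.Y682.XF.Parts) {P S : Finset ℕ} (hP : ∀ p ∈ P, Split p)
    (hS : ∀ q ∈ S, Inert q) (hH : HP (∏ q ∈ S, q) P) (hne : P.Nonempty) {D : ℕ}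
    (hDe : D = (∏ p ∈ P, p) * ∏ q ∈ S, q)
    (hval : ∀ s : ℚ → ℤ, Pool.Agent.Y687.Symb2 s (fun q => ap E14 q) →
      V (S.card + 2 * P.card) (SS s D D)) :
    Pool.Agent.Y682.XF.TwoPart ℚ (WM (D : ℤ)) ∧ Pool.Agent.Y682.XF.rank ℚ (WM (D : ℤ)) = 0 ∧
      Nat.card (Pool.Agent.Y682.XF.Sha2 ℚ (WM (D : ℤ))) = 1 := by
  have hPp : ∀ p ∈ P, p.Prime := fun p hp => (hP p hp).1
  have hSp : ∀ q ∈ S, q.Prime := fun q hq => (hS q hq).1
  have hP0 : (∏ p ∈ P, p) ≠ 0 := Finset.prod_ne_zero_iff.2 fun p hp => (hPp p hp).ne_zero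
  have hS0 : (∏ q ∈ S, q) ≠ 0 := Finset.prod_ne_zero_iff.2 fun p hp => (hSp p hp).ne_zero
  have hD0 : D ≠ 0 := by rw [hDe]; exact Nat.mul_ne_zero hP0 hS0
  have hdis : Disjoint P S := by
    rw [Finset.disjoint_left]
    intro p hp hp'
    exact split_notMem (hP p hp) hS hp'
  have hpf : D.primeFactors = P ∪ S := by
    rw [hDe, Nat.primeFactors_mul hP0 hS0, Nat.primeFactors_prod hPp, Nat.primeFactors_prod hSp]
  have hsum : ∑ p ∈ D.primeFactors, (if IsSquare (-7 : ZMod p) then 2 else 1) =
      S.card + 2 * P.card := by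
    rw [hpf, Finset.sum_union hdis]
    have e1 : ∑ p ∈ P, (if IsSquare (-7 : ZMod p) then 2 else 1) = 2 * P.card := by
      rw [Finset.sum_congr rfl fun p hp => if_pos (split_pr (hP p hp)).2.2.2, Finset.sum_const,
        smul_eq_mul, mul_comm]
    have e2 : ∑ p ∈ S, (if IsSquare (-7 : ZMod p) then 2 else 1) = S.card := by
      rw [Finset.sum_congr rfl fun p hp => if_neg
        (inert_two hS p (hSp p hp) (Finset.dvd_prod_of_mem _ hp)).2.2.1, Finset.sum_const,
        smul_eq_mul, mul_one]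
    rw [e1, e2, add_comm]
  have hPm : (∏ p ∈ P, p) % 4 = 1 := by
    refine Finset.prod_induction _ (fun n => n % 4 = 1) ?_ (by norm_num) ?_
    · intro a b ha hb
      rw [Nat.mul_mod, ha, hb]
    · intro p hp
      have := (hP p hp).2.1
      omega
  have hD4 : D % 4 = 1 := by
    rw [hDe, Nat.mul_mod, hPm, prod_mod_four hS]
  have hDsq : Squarefree (D : ℤ) := by
    have := hH.sqf
    rw [hDe]
    exact this
  have hD1 : 1 < D := by
    obtain ⟨p, hp⟩ := hne
    have h1 : p ∣ D := by
      rw [hDe]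
      exact (Finset.dvd_prod_of_mem _ hp).mul_right _
    exact lt_of_lt_of_le (hPp p hp).one_lt (Nat.le_of_dvd (Nat.pos_of_ne_zero hD0) h1)
  have hmem : ∀ l : ℕ, l.Prime → l ∣ D → l ∈ P ∨ l ∈ S := by
    intro l hl hld
    have : l ∈ D.primeFactors := Nat.mem_primeFactors.2 ⟨hl, hld, hD0⟩
    rw [hpf, Finset.mem_union] at this
    exact this
  have hD42 : D.Coprime 42 := by
    have key : ∀ l : ℕ, l.Prime → l ∣ 42 → ¬ l ∣ D := by
      intro l hl hl42 hlD
      have h42 : l = 2 ∨ l = 3 ∨ l = 7 := by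
        have h1 : l ∣ 2 * 3 * 7 := by norm_num; exact hl42
        rcases hl.dvd_mul.1 h1 with h2 | h2
        · rcases hl.dvd_mul.1 h2 with h3 | h3
          · exact Or.inl ((Nat.prime_dvd_prime_iff_eq hl Nat.prime_two).1 h3)
          · exact Or.inr (Or.inl ((Nat.prime_dvd_prime_iff_eq hl Nat.prime_three).1 h3))
        · exact Or.inr (Or.inr ((Nat.prime_dvd_prime_iff_eq hl (by norm_num)).1 h2))
      rcases hmem l hl hlD with h | h
      · have h1 := (hP l h).2.1
        omega
      · have h1 := (hS l h).2.1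
        omega
    refine Nat.coprime_of_dvd fun l hl h1 h2 => key l hl h2 h1
  obtain ⟨hz, hsha⟩ := hH.inz hDe
  obtain ⟨r₀, h1, h2, h3⟩ := main_Q H hDsq hD4 hD42 hD1 hz fun s t Op Om hSy => by
    rw [hsum]
    exact hval s hSy.H
  have hc := Pool.Agent.Y682.XF.sha2_card hsha
  refine ⟨⟨r₀, h2, ?_, ?_, ?_⟩, hz, hc⟩
  · rw [hz]
    exact h1
  · exact Nat.finite_of_card_ne_zero (by rw [hc]; exact one_ne_zero)
  · rw [hc, h3, padicValNat_one_right]
    rfl

/-- one split prime -/
theorem one_Q (H : Pool.Agent.Y682.XF.Parts) {p : ℕ} {S : Finset ℕ} (hp : Split p)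
    (hS : ∀ q ∈ S, Inert q) (hN : ¬ 8 ∣ NN (∏ q ∈ S, q) p) {D : ℕ} (hDe : D = p * ∏ q ∈ S, q) :
    Pool.Agent.Y682.XF.TwoPart ℚ (WM (D : ℤ)) ∧ Pool.Agent.Y682.XF.rank ℚ (WM (D : ℤ)) = 0 ∧
      Nat.card (Pool.Agent.Y682.XF.Sha2 ℚ (WM (D : ℤ))) = 1 := by
  refine coreQ H (P := {p}) (S := S) ?_ hS (hp_one hp hS hN) (Finset.singleton_nonempty p)
    (by rw [Finset.prod_singleton]; exact hDe) ?_
  · intro q hq
    rw [mem_singleton] at hq
    subst hq
    exact hp
  · intro s hs
    rw [Finset.card_singleton, hDe]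
    exact V_one hs.toSymb hp hS hN

/-- two split primes -/
theorem two_Q (H : Pool.Agent.Y682.XF.Parts) {p1 p2 : ℕ} {S : Finset ℕ} (hne : p1 ≠ p2)
    (h1 : Split p1) (h2 : Split p2) (hS : ∀ q ∈ S, Inert q) (hN : Cond2 p1 p2 (∏ q ∈ S, q)) {D : ℕ}
    (hDe : D = p1 * p2 * ∏ q ∈ S, q) :
    Pool.Agent.Y682.XF.TwoPart ℚ (WM (D : ℤ)) ∧ Pool.Agent.Y682.XF.rank ℚ (WM (D : ℤ)) = 0 ∧
      Nat.card (Pool.Agent.Y682.XF.Sha2 ℚ (WM (D : ℤ))) = 1 := by
  refine coreQ H (P := {p1, p2}) (S := S) ?_ hS (hp_two hne h1 h2 hS hN)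
    (Finset.insert_nonempty p1 {p2}) (by rw [Finset.prod_pair hne]; exact hDe) ?_
  · intro q hq
    rw [mem_insert, mem_singleton] at hq
    rcases hq with rfl | rfl
    · exact h1
    · exact h2
  · intro s hs
    rw [Finset.card_pair hne, hDe]
    exact V_two hs hne h1 h2 hS hN

end Pool.Agent.U115.TP
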