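import Mathlib

/-!
# Local solutions of the equations of a descent by a two-isogeny
-/

set_option autoImplicit false
set_option linter.style.haveILetI false

namespace Pool.Agent.U115.TP

variable {l : ℕ} [hl : Fact l.Prime]

/-- a solution over the `l`-adic integers of the equation of the homogeneous space of `d`, `w` and `e`
not both divisible by `l` -/
def LSol (A B d : ℤ) (l : ℕ) [Fact l.Prime] : Prop :=
  ∃ w e N : ℤ_[l], ¬ ((l : ℤ_[l]) ∣ w ∧ (l : ℤ_[l]) ∣ e) ∧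
    (d : ℤ_[l]) * N ^ 2 = (d : ℤ_[l]) ^ 2 * w ^ 4 + (A : ℤ_[l]) * d * w ^ 2 * e ^ 2 + (B : ℤ_[l]) * e ^ 4

theorem toZMod_eq_zero {x : ℤ_[l]} : PadicInt.toZMod x = 0 ↔ (l : ℤ_[l]) ∣ x := by
  rw [← RingHom.mem_ker, PadicInt.ker_toZMod, PadicInt.maximalIdeal_eq_span_p,
    Ideal.mem_span_singleton]

theorem dvd_int {d : ℤ} : (l : ℤ_[l]) ∣ (d : ℤ_[l]) ↔ (l : ℤ) ∣ d := by
  rw [← toZMod_eq_zero, map_intCast, ZMod.intCast_zmod_eq_zero_iff_dvd]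

/-- a number whose square times a squarefree integer is integral -/
theorem norm_le_of_sq {d : ℤ} (hd : Squarefree d) {N : ℚ_[l]} (h : ‖(d : ℚ_[l]) * N ^ 2‖ ≤ 1) :
    ‖N‖ ≤ 1 := by
  have hl1 : (1 : ℝ) < l := by exact_mod_cast hl.out.one_lt
  have h1 : ¬ ((l : ℤ) ^ 2 ∣ d) := by
    intro h2
    have h3 := hd (l : ℤ) (by rw [← sq]; exact h2)
    exact (Nat.prime_iff_prime_int.1 hl.out).not_isUnit h3
  have h2 : ((l : ℝ) ^ 2)⁻¹ < ‖(d : ℚ_[l])‖ := by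
    by_contra h3
    push Not at h3
    apply h1
    have h4 : ‖(d : ℚ_[l])‖ ≤ (l : ℝ) ^ (-((2 : ℕ) : ℤ)) := by
      rw [zpow_neg, zpow_natCast]
      exact h3
    have := (Padic.norm_int_le_pow_iff_dvd d 2).1 h4
    exact_mod_cast this
  by_contra h3
  push Not at h3
  have h4 : (l : ℝ) ≤ ‖N‖ := by
    by_contra h5
    push Not at h5
    have h6 : ‖N‖ ≤ (l : ℝ) ^ (0 : ℤ) := by
      rw [Padic.norm_le_pow_iff_norm_lt_pow_add_one]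
      simpa using h5
    rw [zpow_zero] at h6
    linarith
  rw [norm_mul, norm_pow] at h
  have h5 : (l : ℝ) ^ 2 ≤ ‖N‖ ^ 2 := by
    have : (0 : ℝ) ≤ l := by positivity
    nlinarith
  have h6 : (0 : ℝ) < (l : ℝ) ^ 2 := by positivity
  have h7 : 1 < ‖(d : ℚ_[l])‖ * ‖N‖ ^ 2 := by
    calc (1 : ℝ) = ((l : ℝ) ^ 2)⁻¹ * (l : ℝ) ^ 2 := by field_simp
      _ < ‖(d : ℚ_[l])‖ * (l : ℝ) ^ 2 := by gcongr
      _ ≤ ‖(d : ℚ_[l])‖ * ‖N‖ ^ 2 := by gcongr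
  linarith

/-- coprime numerator and denominator -/
theorem exists_frac (z : ℚ_[l]) : ∃ w e : ℤ_[l], e ≠ 0 ∧ z = (w : ℚ_[l]) / e ∧
    ¬ ((l : ℤ_[l]) ∣ w ∧ (l : ℤ_[l]) ∣ e) := by
  have hu : ¬ (l : ℤ_[l]) ∣ 1 := fun h => (PadicInt.prime_p (p := l)).not_isUnit (isUnit_of_dvd_one h)
  rcases le_or_gt ‖z‖ 1 with h | h
  · refine ⟨⟨z, h⟩, 1, one_ne_zero, ?_, fun h2 => hu h2.2⟩
    simp
  · have hz0 : z ≠ 0 := by
      rintro rfl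
      norm_num at h
    have h1 : ‖z⁻¹‖ ≤ 1 := by
      rw [norm_inv]
      exact inv_le_one_of_one_le₀ h.le
    refine ⟨1, ⟨z⁻¹, h1⟩, ?_, ?_, fun h2 => hu h2.1⟩
    · intro h2
      have h3 := congrArg (fun x : ℤ_[l] => (x : ℚ_[l])) h2
      simp only at h3
      exact inv_ne_zero hz0 h3
    · simp

theorem lsol_aux {A B d : ℤ} (hd : Squarefree d) {w e : ℤ_[l]}
    (hwe : ¬ ((l : ℤ_[l]) ∣ w ∧ (l : ℤ_[l]) ∣ e)) {N : ℚ_[l]}
    (h : (d : ℚ_[l]) * N ^ 2 = (d : ℚ_[l]) ^ 2 * (w : ℚ_[l]) ^ 4 +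
      (A : ℚ_[l]) * d * (w : ℚ_[l]) ^ 2 * (e : ℚ_[l]) ^ 2 + (B : ℚ_[l]) * (e : ℚ_[l]) ^ 4) :
    LSol A B d l := by
  have h1 : (d : ℚ_[l]) * N ^ 2 = (((d : ℤ_[l]) ^ 2 * w ^ 4 + (A : ℤ_[l]) * d * w ^ 2 * e ^ 2 +
      (B : ℤ_[l]) * e ^ 4 : ℤ_[l]) : ℚ_[l]) := by
    rw [h]
    push_cast
    ring
  have h2 : ‖N‖ ≤ 1 := norm_le_of_sq hd (by rw [h1]; exact PadicInt.norm_le_one _)
  obtain ⟨N', hN'⟩ : ∃ N' : ℤ_[l], (N' : ℚ_[l]) = N := ⟨⟨N, h2⟩, rfl⟩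
  refine ⟨w, e, N', hwe, ?_⟩
  apply PadicInt.ext
  push_cast
  rw [hN', h]

theorem lsol_of {A B d : ℤ} (hd : Squarefree d) {z m : ℚ_[l]} (hz : z ≠ 0)
    (hzm : (d : ℚ_[l]) * z ^ 2 = m)
    (hm : m = 1 ∨ m = B ∨ (m ≠ 0 ∧ ∃ y : ℚ_[l], y ^ 2 = m * (m ^ 2 + A * m + B))) :
    LSol A B d l := by
  have hu : ¬ (l : ℤ_[l]) ∣ 1 := fun h => (PadicInt.prime_p (p := l)).not_isUnit (isUnit_of_dvd_one h)
  have hd0 : (d : ℚ_[l]) ≠ 0 := by exact_mod_cast hd.ne_zero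
  rcases hm with hm | hm | ⟨hm, y, hy⟩
  · refine lsol_aux (A := A) (B := B) hd (w := 1) (e := 0) (fun h => hu h.1) (N := z⁻¹) ?_
    have h1 : (z⁻¹) ^ 2 = (d : ℚ_[l]) := by
      rw [inv_pow, ← one_div, div_eq_iff (pow_ne_zero 2 hz), hzm, hm]
    rw [h1]
    push_cast
    ring
  · refine lsol_aux (A := A) (B := B) hd (w := 0) (e := 1) (fun h => hu h.2) (N := z) ?_
    rw [hzm, hm]
    push_cast
    ring
  · obtain ⟨w, e, he, hwe, hnd⟩ := exists_frac z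
    have he' : (e : ℚ_[l]) ≠ 0 := by
      intro h
      exact he (Subtype.coe_injective h)
    have hw' : (w : ℚ_[l]) ≠ 0 := by
      intro h
      rw [h, zero_div] at hwe
      exact hz hwe
    refine lsol_aux (A := A) (B := B) hd (w := w) (e := e) hnd
      (N := y * (e : ℚ_[l]) ^ 3 / (d * w)) ?_
    rw [div_pow, mul_pow, hy, ← hzm, hwe]
    field_simp

/-- a prime dividing `d` divides `B` -/
theorem LSol.dvdB {A B d : ℤ} (h : LSol A B d l) (hd : Squarefree d) (hld : (l : ℤ) ∣ d) :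
    (l : ℤ) ∣ B := by
  by_contra hB
  obtain ⟨w, e, N, hwe, h⟩ := h
  have hP := PadicInt.prime_p (p := l)
  have hl0 : (l : ℤ_[l]) ≠ 0 := hP.ne_zero
  obtain ⟨d1, rfl⟩ := hld
  have hd1 : ¬ (l : ℤ_[l]) ∣ (d1 : ℤ_[l]) := by
    rw [dvd_int]
    rintro ⟨k, hk⟩
    exact (Nat.prime_iff_prime_int.1 hl.out).not_isUnit (hd l ⟨k, by rw [hk]; ring⟩)
  push_cast at h
  have h1 : (l : ℤ_[l]) ∣ (B : ℤ_[l]) * e ^ 4 :=
    ⟨(d1 : ℤ_[l]) * N ^ 2 - l * (d1 : ℤ_[l]) ^ 2 * w ^ 4 - A * d1 * w ^ 2 * e ^ 2,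
      by linear_combination -h⟩
  have h2 : (l : ℤ_[l]) ∣ e :=
    hP.dvd_of_dvd_pow ((hP.dvd_or_dvd h1).resolve_left (fun h3 => hB (dvd_int.1 h3)))
  obtain ⟨e1, rfl⟩ := h2
  have h3 : (d1 : ℤ_[l]) * N ^ 2 = l * ((d1 : ℤ_[l]) ^ 2 * w ^ 4 + l * (A * d1 * w ^ 2 * e1 ^ 2) +
      l ^ 2 * (B * e1 ^ 4)) := by
    apply mul_left_cancel₀ hl0
    linear_combination h
  have h4 : (l : ℤ_[l]) ∣ N := hP.dvd_of_dvd_pow ((hP.dvd_or_dvd ⟨_, h3⟩).resolve_left hd1)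
  obtain ⟨N1, rfl⟩ := h4
  have h5 : (d1 : ℤ_[l]) ^ 2 * w ^ 4 = l * ((d1 : ℤ_[l]) * N1 ^ 2 - A * d1 * w ^ 2 * e1 ^ 2 -
      l * (B * e1 ^ 4)) := by
    apply mul_left_cancel₀ hl0
    linear_combination -h3
  have h6 : (l : ℤ_[l]) ∣ w :=
    hP.dvd_of_dvd_pow ((hP.dvd_or_dvd ⟨_, h5⟩).resolve_left
      (fun h7 => hd1 (hP.dvd_of_dvd_pow h7)))
  exact hwe ⟨h6, Dvd.intro _ rfl⟩

/-- a prime dividing both `d` and `M` -/
theorem LSol.root {A0 B0 M d : ℤ} (h : LSol (A0 * M) (B0 * M ^ 2) d l) (hd : Squarefree d)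
    (hM : Squarefree M) (hqd : (l : ℤ) ∣ d) (hqM : (l : ℤ) ∣ M) :
    ∃ d1 M1 : ℤ, d = l * d1 ∧ M = l * M1 ∧ (M1 : ZMod l) ≠ 0 ∧ ∃ w e : ZMod l, e ≠ 0 ∧
      ((d1 : ZMod l) * w ^ 2) ^ 2 + A0 * ((M1 : ZMod l) * e ^ 2) * ((d1 : ZMod l) * w ^ 2)
        + B0 * ((M1 : ZMod l) * e ^ 2) ^ 2 = 0 := by
  obtain ⟨w, e, N, hwe, h⟩ := h
  have hP := PadicInt.prime_p (p := l)
  have hl0 : (l : ℤ_[l]) ≠ 0 := hP.ne_zero
  have hqP : Prime (l : ℤ) := Nat.prime_iff_prime_int.1 hl.out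
  obtain ⟨d1, hd1⟩ := hqd
  obtain ⟨M1, hM1⟩ := hqM
  have nd1 : ¬ (l : ℤ) ∣ d1 := by
    rintro ⟨k, hk⟩
    have := hd l ⟨k, by rw [hd1, hk]; ring⟩
    exact hqP.not_isUnit this
  have nM1 : ¬ (l : ℤ) ∣ M1 := by
    rintro ⟨k, hk⟩
    have := hM l ⟨k, by rw [hM1, hk]; ring⟩
    exact hqP.not_isUnit this
  have hd' : (d : ℤ_[l]) = l * d1 := by rw [hd1]; push_cast; rfl
  have hM' : (M : ℤ_[l]) = l * M1 := by rw [hM1]; push_cast; rfl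
  push_cast at h
  rw [hd', hM'] at h
  have h1 : (d1 : ℤ_[l]) * N ^ 2 = l * (d1 ^ 2 * w ^ 4 + A0 * M1 * d1 * w ^ 2 * e ^ 2 +
      B0 * M1 ^ 2 * e ^ 4) := by
    apply mul_left_cancel₀ hl0
    linear_combination h
  have hqN : (l : ℤ_[l]) ∣ N :=
    hP.dvd_of_dvd_pow ((hP.dvd_or_dvd ⟨_, h1⟩).resolve_left (fun h2 => nd1 (dvd_int.1 h2)))
  obtain ⟨N1, hN1⟩ := hqN
  have h2 : (d1 : ℤ_[l]) * (l * N1 ^ 2) = d1 ^ 2 * w ^ 4 + A0 * M1 * d1 * w ^ 2 * e ^ 2 +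
      B0 * M1 ^ 2 * e ^ 4 := by
    apply mul_left_cancel₀ hl0
    rw [← h1, hN1]; ring
  have h3 := congrArg (PadicInt.toZMod (p := l)) h2
  simp only [map_mul, map_add, map_pow, map_intCast, map_natCast] at h3
  rw [ZMod.natCast_self] at h3
  have nM1' : (M1 : ZMod l) ≠ 0 := by
    rw [Ne, ZMod.intCast_zmod_eq_zero_iff_dvd]; exact nM1
  have nd1' : (d1 : ZMod l) ≠ 0 := by
    rw [Ne, ZMod.intCast_zmod_eq_zero_iff_dvd]; exact nd1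
  refine ⟨d1, M1, hd1, hM1, nM1', PadicInt.toZMod w, PadicInt.toZMod e, ?_, ?_⟩
  · intro he
    have h4 : (d1 : ZMod l) ^ 2 * (PadicInt.toZMod w) ^ 4 = 0 := by
      rw [he] at h3
      linear_combination -h3
    have h5 : PadicInt.toZMod w = 0 := by
      rcases mul_eq_zero.1 h4 with h6 | h6
      · exact absurd h6 (pow_ne_zero 2 nd1')
      · exact (pow_eq_zero_iff (by norm_num)).1 h6
    exact hwe ⟨toZMod_eq_zero.1 h5, toZMod_eq_zero.1 he⟩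
  · linear_combination -h3

/-- a prime of `M` not dividing `d`: then `d` is a square modulo this prime -/
theorem LSol.sq {A0 B0 M d : ℤ} (h : LSol (A0 * M) (B0 * M ^ 2) d l) (hM : Squarefree M)
    (hpd : ¬ (l : ℤ) ∣ d) (hpM : (l : ℤ) ∣ M) {b : ZMod l}
    (hB : (B0 : ZMod l) = b ^ 2) (hb0 : b ≠ 0) : IsSquare (d : ZMod l) := by
  obtain ⟨w, e, N, hwe, h⟩ := h
  have hP := PadicInt.prime_p (p := l)
  have hl0 : (l : ℤ_[l]) ≠ 0 := hP.ne_zero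
  have hqP : Prime (l : ℤ) := Nat.prime_iff_prime_int.1 hl.out
  obtain ⟨M1, hM1⟩ := hpM
  have nM1 : ¬ (l : ℤ) ∣ M1 := by
    rintro ⟨k, hk⟩
    have := hM l ⟨k, by rw [hM1, hk]; ring⟩
    exact hqP.not_isUnit this
  have hd0 : (d : ZMod l) ≠ 0 := by
    rw [Ne, ZMod.intCast_zmod_eq_zero_iff_dvd]; exact hpd
  have hM0' : (M1 : ZMod l) ≠ 0 := by
    rw [Ne, ZMod.intCast_zmod_eq_zero_iff_dvd]; exact nM1
  have hM' : (M : ℤ_[l]) = l * M1 := by rw [hM1]; push_cast; rfl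
  push_cast at h
  rw [hM'] at h
  have hNw : (PadicInt.toZMod N) ^ 2 = (d : ZMod l) * (PadicInt.toZMod w) ^ 4 := by
    have h3 := congrArg (PadicInt.toZMod (p := l)) h
    simp only [map_mul, map_add, map_pow, map_intCast, map_natCast] at h3
    rw [ZMod.natCast_self] at h3
    apply mul_left_cancel₀ hd0
    linear_combination h3
  by_cases hw : PadicInt.toZMod w = 0
  · have hpw : (l : ℤ_[l]) ∣ w := toZMod_eq_zero.1 hw
    have he0 : PadicInt.toZMod e ≠ 0 := fun he => hwe ⟨hpw, toZMod_eq_zero.1 he⟩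
    have hpN : (l : ℤ_[l]) ∣ N := by
      rw [hw] at hNw
      apply toZMod_eq_zero.1
      have : (PadicInt.toZMod N) ^ 2 = 0 := by rw [hNw]; ring
      exact pow_eq_zero_iff (two_ne_zero) |>.1 this
    obtain ⟨w1, hw1⟩ := hpw
    obtain ⟨N1, hN1⟩ := hpN
    have h4 : (d : ℤ_[l]) * N1 ^ 2 = d ^ 2 * l ^ 2 * w1 ^ 4 + A0 * l * M1 * d * w1 ^ 2 * e ^ 2 +
        B0 * M1 ^ 2 * e ^ 4 := by
      apply mul_left_cancel₀ (pow_ne_zero 2 hl0)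
      rw [hw1, hN1] at h
      linear_combination h
    have h5 : (d : ZMod l) * (PadicInt.toZMod N1) ^ 2 =
        (b * (M1 : ZMod l) * (PadicInt.toZMod e) ^ 2) ^ 2 := by
      have h3 := congrArg (PadicInt.toZMod (p := l)) h4
      simp only [map_mul, map_add, map_pow, map_intCast, map_natCast] at h3
      rw [ZMod.natCast_self, hB] at h3
      linear_combination h3
    have hr0 : b * (M1 : ZMod l) * (PadicInt.toZMod e) ^ 2 ≠ 0 :=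
      mul_ne_zero (mul_ne_zero hb0 hM0') (pow_ne_zero 2 he0)
    have hN0 : PadicInt.toZMod N1 ≠ 0 := by
      intro h0
      rw [h0] at h5
      apply pow_ne_zero 2 hr0
      rw [← h5]; ring
    refine ⟨b * (M1 : ZMod l) * (PadicInt.toZMod e) ^ 2 / (PadicInt.toZMod N1), ?_⟩
    rw [div_mul_div_comm, eq_div_iff (mul_ne_zero hN0 hN0)]
    linear_combination h5
  · refine ⟨(PadicInt.toZMod N) / (PadicInt.toZMod w) ^ 2, ?_⟩
    rw [div_mul_div_comm, eq_div_iff (mul_ne_zero (pow_ne_zero 2 hw) (pow_ne_zero 2 hw))]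
    linear_combination -hNw

/-- reduction modulo `16` -/
theorem LSol.mod16 [Fact (Nat.Prime 2)] {A B d : ℤ} (h : LSol A B d 2) :
    ∃ w e N : ZMod 16, (w ^ 2 = 1 ∨ w ^ 2 = 9 ∨ e ^ 2 = 1 ∨ e ^ 2 = 9) ∧
      (d : ZMod 16) * N ^ 2 = (d : ZMod 16) ^ 2 * w ^ 4 + A * d * w ^ 2 * e ^ 2 + B * e ^ 4 := by
  obtain ⟨w, e, N, hwe, h⟩ := h
  have hP := PadicInt.prime_p (p := 2)
  have hun : ∀ x : ℤ_[2], ¬ ((2 : ℕ) : ℤ_[2]) ∣ x → IsUnit x := by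
    intro x hx
    by_contra hu
    apply hx
    rw [← toZMod_eq_zero, ← RingHom.mem_ker, PadicInt.ker_toZMod]
    exact (IsLocalRing.mem_maximalIdeal x).2 hu
  have hsq : ∀ x v : ZMod 16, x * v = 1 → x ^ 2 = 1 ∨ x ^ 2 = 9 := by decide
  let φ : ℤ_[2] →+* ZMod 16 := (PadicInt.toZModPow 4 : ℤ_[2] →+* ZMod (2 ^ 4))
  have hφ : ∀ x : ℤ_[2], IsUnit x → φ x ^ 2 = 1 ∨ φ x ^ 2 = 9 := by
    intro x hx
    obtain ⟨v, hv⟩ := hx.exists_right_inv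
    refine hsq (φ x) (φ v) ?_
    rw [← map_mul, hv, map_one]
  refine ⟨φ w, φ e, φ N, ?_, ?_⟩
  · by_cases h1 : ((2 : ℕ) : ℤ_[2]) ∣ w
    · have h2 : ¬ ((2 : ℕ) : ℤ_[2]) ∣ e := fun h2 => hwe ⟨h1, h2⟩
      rcases hφ e (hun e h2) with h3 | h3
      · exact Or.inr (Or.inr (Or.inl h3))
      · exact Or.inr (Or.inr (Or.inr h3))
    · rcases hφ w (hun w h1) with h3 | h3
      · exact Or.inl h3
      · exact Or.inr (Or.inl h3)
  · have h3 := congrArg φ h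
    simp only [map_mul, map_add, map_pow, map_intCast] at h3
    exact h3

end Pool.Agent.U115.TP
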