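import Pool.Agent.U115.TP.Core
import Pool.Agent.Y682.XD.Fin

/-!
# Inert primes of the cyclotomic extensions, and the number of points of the minimal equation
-/

set_option autoImplicit false
set_option linter.style.haveILetI false

open Finset NumberField

namespace Pool.Agent.U115.TP

/-- primes that are not `±1` modulo `9` are inert in the fields of odd degree of `3`-power conductor -/
theorem inert9 {n : ℕ} {M : Type} [Field M] [NumberField M]
    [IsCyclotomicExtension {3 ^ (n + 1)} ℚ M] (K : IntermediateField ℚ M)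
    (hodd : Odd (Module.finrank ℚ K)) {l : ℕ} (hl : l.Prime)
    (h9 : l % 9 = 2 ∨ l % 9 = 4 ∨ l % 9 = 5 ∨ l % 9 = 7) :
    (Ideal.span {((l : ℕ) : 𝓞 K)}).IsPrime := by
  have hc : Nat.Coprime l (3 ^ (n + 1)) := by
    refine Nat.Coprime.pow_right _ ?_
    rw [Nat.coprime_primes hl Nat.prime_three]
    rintro rfl
    omega
  have ht : ((ZMod.unitOfCoprime l hc : (ZMod (3 ^ (n + 1)))ˣ) : ZMod (3 ^ (n + 1))) = (l : ℕ) :=
    ZMod.coe_unitOfCoprime _ _
  refine Pool.Agent.Y682.XT.prime_of_gen Pool.Agent.Y692.XT.inert hl ht fun x => ?_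
  obtain ⟨a, ha, ha3⟩ : ∃ a : ℤ, (l : ℤ) ^ 2 = 1 + 3 * a ∧ ¬ (3 : ℤ) ∣ a := by
    have h1 : ((l : ℤ) ^ 2) % 9 = 4 ∨ ((l : ℤ) ^ 2) % 9 = 7 := by
      have h2 : (l : ℤ) % 9 = 2 ∨ (l : ℤ) % 9 = 4 ∨ (l : ℤ) % 9 = 5 ∨ (l : ℤ) % 9 = 7 := by omega
      rw [pow_two, Int.mul_emod]
      rcases h2 with h2 | h2 | h2 | h2 <;> rw [h2] <;> norm_num
    exact ⟨((l : ℤ) ^ 2 - 1) / 3, by omega, by omega⟩
  have h1 := Pool.Agent.Y682.XT.gen_three (c := (ZMod.unitOfCoprime l hc) ^ 2) hodd (a := a) ha3 (by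
    rw [Units.val_pow_eq_pow_val, ht]
    have := congrArg (fun z : ℤ => (z : ZMod (3 ^ (n + 1)))) ha
    push_cast at this ⊢
    exact this) x
  rw [map_pow] at h1
  exact (Subgroup.zpowers_le.2 (Subgroup.npow_mem_zpowers _ 2)) h1

/-- the number of the points of the minimal equation -/
theorem pts_eq {m p : ℕ} [hp : Fact p.Prime] (h2 : p ≠ 2) (h3 : p ≠ 3) (hm : m % 4 = 1) :
    Nat.card {P : ZMod p × ZMod p // (((⟨1, ((m : ℤ) - 1) / 4, 1, (9 * (m : ℤ) ^ 2 - 1) / 2,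
      -((23 * (m : ℤ) ^ 3 + 1) / 4)⟩ : WeierstrassCurve ℤ).map
        (Int.castRingHom (ZMod p))).toAffine.Equation P.1 P.2)} =
    Nat.card {P : ZMod p × ZMod p // P.2 ^ 2 = P.1 ^ 3 + ((5805 * (m : ℤ) ^ 2 : ℤ) : ZMod p) * P.1 +
      ((-285714 * (m : ℤ) ^ 3 : ℤ) : ZMod p)} := by
  have n2 : (2 : ZMod p) ≠ 0 := by
    have : ((2 : ℕ) : ZMod p) ≠ 0 := by
      rw [Ne, ZMod.natCast_eq_zero_iff]
      exact fun h => h2 ((Nat.prime_dvd_prime_iff_eq hp.out Nat.prime_two).1 h)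
    exact_mod_cast this
  have n3 : (3 : ZMod p) ≠ 0 := by
    have : ((3 : ℕ) : ZMod p) ≠ 0 := by
      rw [Ne, ZMod.natCast_eq_zero_iff]
      exact fun h => h3 ((Nat.prime_dvd_prime_iff_eq hp.out Nat.prime_three).1 h)
    exact_mod_cast this
  obtain ⟨k, hk⟩ : ∃ k : ℤ, (m : ℤ) = 4 * k + 1 := ⟨((m / 4 : ℕ) : ℤ), by omega⟩
  have e2 : ((m : ℤ) - 1) / 4 = k := by omega
  have e4 : (9 * (m : ℤ) ^ 2 - 1) / 2 = 72 * k ^ 2 + 36 * k + 4 := by
    rw [hk, show 9 * (4 * k + 1) ^ 2 - 1 = 2 * (72 * k ^ 2 + 36 * k + 4) by ring]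
    exact Int.mul_ediv_cancel_left _ (by norm_num)
  have e6 : (23 * (m : ℤ) ^ 3 + 1) / 4 = 368 * k ^ 3 + 276 * k ^ 2 + 69 * k + 6 := by
    rw [hk, show 23 * (4 * k + 1) ^ 3 + 1 = 4 * (368 * k ^ 3 + 276 * k ^ 2 + 69 * k + 6) by ring]
    exact Int.mul_ediv_cancel_left _ (by norm_num)
  rw [e2, e4, e6, hk]
  have n36 : (36 : ZMod p) ≠ 0 := by
    rw [show (36 : ZMod p) = 2 ^ 2 * 3 ^ 2 by norm_num]
    exact mul_ne_zero (pow_ne_zero _ n2) (pow_ne_zero _ n3)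
  have n216 : (216 : ZMod p) ≠ 0 := by
    rw [show (216 : ZMod p) = 2 ^ 3 * 3 ^ 3 by norm_num]
    exact mul_ne_zero (pow_ne_zero _ n2) (pow_ne_zero _ n3)
  have key : ∀ x y : ZMod p, (((⟨1, k, 1, 72 * k ^ 2 + 36 * k + 4,
      -(368 * k ^ 3 + 276 * k ^ 2 + 69 * k + 6)⟩ : WeierstrassCurve ℤ).map
        (Int.castRingHom (ZMod p))).toAffine.Equation x y) ↔
      (108 * (2 * y + x + 1)) ^ 2 = (36 * x + 3 * (4 * k + 1)) ^ 3 +
        ((5805 * (4 * k + 1) ^ 2 : ℤ) : ZMod p) * (36 * x + 3 * (4 * k + 1)) +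
      ((-285714 * (4 * k + 1) ^ 3 : ℤ) : ZMod p) := by
    intro x y
    rw [WeierstrassCurve.Affine.equation_iff']
    simp only [WeierstrassCurve.map, WeierstrassCurve.toAffine, eq_intCast]
    push_cast
    constructor
    · intro h
      linear_combination 46656 * h
    · intro h
      have h5 : (46656 : ZMod p) ≠ 0 := by
        rw [show (46656 : ZMod p) = 216 ^ 2 by norm_num]
        exact pow_ne_zero _ n216
      apply mul_left_cancel₀ h5
      linear_combination h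
  have n108 : (108 : ZMod p) ≠ 0 := by
    rw [show (108 : ZMod p) = 2 ^ 2 * 3 ^ 3 by norm_num]
    exact mul_ne_zero (pow_ne_zero _ n2) (pow_ne_zero _ n3)
  refine Nat.card_congr (Equiv.subtypeEquiv
    { toFun := fun P => (36 * P.1 + 3 * (4 * k + 1), 108 * (2 * P.2 + P.1 + 1))
      invFun := fun P => ((P.1 - 3 * (4 * k + 1)) / 36,
        (P.2 / 108 - (P.1 - 3 * (4 * k + 1)) / 36 - 1) / 2)
      left_inv := ?_
      right_inv := ?_ } fun P => key P.1 P.2)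
  · rintro ⟨x, y⟩
    refine Prod.ext ?_ ?_
    · show (36 * x + 3 * (4 * (k : ZMod p) + 1) - 3 * (4 * k + 1)) / 36 = x
      field_simp
      ring
    · show (108 * (2 * y + x + 1) / 108 - (36 * x + 3 * (4 * (k : ZMod p) + 1) -
        3 * (4 * k + 1)) / 36 - 1) / 2 = y
      field_simp
      ring
  · rintro ⟨x, y⟩
    refine Prod.ext ?_ ?_
    · show 36 * ((x - 3 * (4 * (k : ZMod p) + 1)) / 36) + 3 * (4 * k + 1) = x
      field_simp
      ring
    · show 108 * (2 * ((y / 108 - (x - 3 * (4 * (k : ZMod p) + 1)) / 36 - 1) / 2) +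
        (x - 3 * (4 * (k : ZMod p) + 1)) / 36 + 1) = y
      field_simp
      ring

end Pool.Agent.U115.TP
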