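import Pool.Agent.U115.TP.Misc

/-!
# The 2-part over the fields of odd degree
-/

set_option autoImplicit false
set_option linter.style.haveILetI false

open Finset NumberField IsDedekindDomain

namespace Pool.Agent.U115.TP

open scoped Classical

open Pool.Agent.TH841.NF.D (Sha)
open Pool.Agent.Y700 (WM)
open Pool.Agent.Y682 (NCl)
open Pool.Agent.Y687 (Split Inert NN Cond2 split_not_dvd two_sqf prod_mod_four dvd_prod_primes
  squarefree_prod)

/-- the conclusion -/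
def Cl (K : Type) [Field K] [NumberField K] (W : WeierstrassCurve ℤ) : Prop :=
  (∀ v : HeightOneSpectrum (𝓞 K), Pool.Agent.Y682.XF.MinimalAt W v) ∧
    {v : HeightOneSpectrum (𝓞 K) | Pool.Agent.Y682.XF.c W v ≠ 1}.Finite ∧
    Pool.Agent.Y682.XF.TwoPart K W ∧ Pool.Agent.Y682.XF.rank K W = 0 ∧
    Nat.card (Pool.Agent.Y682.XF.Sha2 K W) = 1

/-- the data on `D` -/
structure Dt (D : ℕ) : Prop where
  sq : Squarefree (D : ℤ)
  mod : D % 4 = 1
  pr : ∀ l : ℕ, l.Prime → l ∣ D → Split l ∨ Inert l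
  tp : Pool.Agent.Y682.XF.TwoPart ℚ (WM (D : ℤ)) ∧ Pool.Agent.Y682.XF.rank ℚ (WM (D : ℤ)) = 0 ∧
      Nat.card (Pool.Agent.Y682.XF.Sha2 ℚ (WM (D : ℤ))) = 1

theorem Dt.n14 {D : ℕ} (h : Dt D) {l : ℕ} (hl : l.Prime) (hlD : l ∣ D) : ¬ l ∣ 14 := by
  intro h14
  have h2 : l = 2 ∨ l = 7 := by
    have h1 : l ∣ 2 * 7 := by norm_num; exact h14
    rcases hl.dvd_mul.1 h1 with h3 | h3
    · exact Or.inl ((Nat.prime_dvd_prime_iff_eq hl Nat.prime_two).1 h3)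
    · exact Or.inr ((Nat.prime_dvd_prime_iff_eq hl (by norm_num)).1 h3)
  rcases h.pr l hl hlD with h1 | h1
  · have := h1.2.1
    omega
  · have := h1.2.1
    omega

/-- over the fields of odd degree -/
theorem Dt.overK {D : ℕ} (h : Dt D) (H : Pool.Agent.Y682.XF.Parts) (hU : Pool.Agent.Y682.XF.S_REGU)
    (q : ℕ) [NeZero q] (hq : IsPrimePow q) (hco : q.Coprime 14) (M : Type) [Field M]
    [NumberField M] [IsCyclotomicExtension {q} ℚ M] (K : IntermediateField ℚ M)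
    (hodd : Odd (Module.finrank ℚ K))
    (hcl : 3 ∣ q ∨ ((Ideal.span {((2 : ℕ) : 𝓞 K)}).IsPrime ∧
      (Ideal.span {((7 : ℕ) : 𝓞 K)}).IsPrime ∧ Odd (Nat.card (NCl K))))
    (hDp : ∀ l : ℕ, l.Prime → l ∣ D → ¬ l ∣ q ∧ (Ideal.span {((l : ℕ) : 𝓞 K)}).IsPrime) :
    Cl K (WM (D : ℤ)) ∧ (∀ v : HeightOneSpectrum (𝓞 ℚ), Pool.Agent.Y682.XF.MinimalAt (WM (D : ℤ)) v) ∧
    {v : HeightOneSpectrum (𝓞 ℚ) | Pool.Agent.Y682.XF.c (WM (D : ℤ)) v ≠ 1}.Finite := by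
  obtain ⟨h1, h2, h3, h4, h5, ⟨e⟩, -, h8, -⟩ := Pool.Agent.Y682.XF.final H hU q hq hco M K hodd hcl
    (D : ℤ) h.sq (by have := h.mod; omega) (by
      intro p hp hpD
      have hpD' : p ∣ D := Int.natCast_dvd_natCast.1 hpD
      obtain ⟨k1, k2⟩ := hDp p hp hpD'
      refine ⟨fun h => ?_, k2⟩
      rcases hp.dvd_mul.1 h with h | h
      · exact (Dt.n14 ‹Dt D› hp hpD') h
      · exact k1 h)
  refine ⟨⟨h1, h3, h8.2 h.tp.1, h5.trans h.tp.2.1, ?_⟩, h2, h4⟩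
  rw [Nat.card_congr e.toEquiv, h.tp.2.2]

/-- over `ℚ` -/
theorem Dt.overQ {D : ℕ} (h : Dt D) (H : Pool.Agent.Y682.XF.Parts)
    (hU : Pool.Agent.Y682.XF.S_REGU) : Cl ℚ (WM (D : ℤ)) := by
  obtain ⟨M, _, _, _, K, hK⟩ : ∃ (M : Type) (_ : Field M) (_ : NumberField M)
      (_ : IsCyclotomicExtension {3} ℚ M) (K : IntermediateField ℚ M), K = ⊥ :=
    exists_cyc3
  have e0 : ℚ ≃+* K := by
    rw [hK]
    exact (IntermediateField.botEquiv ℚ M).symm.toRingEquiv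
  have hprime : ∀ p : ℕ, p.Prime → (Ideal.span {((p : ℕ) : 𝓞 K)}).IsPrime :=
    fun p hp => Pool.Agent.Y682.XD.prime_tr e0 p (Pool.Agent.Y682.XF.prime_Q hp)
  have hfin : Module.finrank ℚ K = 1 := by
    rw [hK]
    exact IntermediateField.finrank_bot
  have hodd : Odd (Module.finrank ℚ K) := by rw [hfin]; exact odd_one
  obtain ⟨-, h2, h3⟩ := h.overK H hU 3 Nat.prime_three.isPrimePow (by norm_num) M K hodd
    (Or.inl dvd_rfl) (fun l hl hlD => by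
      refine ⟨fun h3 => ?_, hprime l hl⟩
      have h4 := (Nat.prime_dvd_prime_iff_eq hl Nat.prime_three).1 h3
      subst h4
      rcases h.pr 3 hl hlD with h5 | h5
      · have := h5.2.1
        omega
      · have := h5.2.1
        omega)
  exact ⟨h2, h3, h.tp⟩

/-- over the cyclotomic `ℤ₃`-extension -/
theorem Dt.over3 {D : ℕ} (h : Dt D) (H : Pool.Agent.Y682.XF.Parts) (hU : Pool.Agent.Y682.XF.S_REGU)
    (h9 : ∀ l : ℕ, l.Prime → l ∣ D → l % 9 ≠ 1 ∧ l % 9 ≠ 8) (n : ℕ) (M : Type) [Field M]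
    [NumberField M] [IsCyclotomicExtension {3 ^ (n + 1)} ℚ M] (K : IntermediateField ℚ M)
    (hodd : Odd (Module.finrank ℚ K)) : Cl K (WM (D : ℤ)) := by
  have hnz : NeZero (3 ^ (n + 1)) := ⟨by positivity⟩
  refine (h.overK H hU (3 ^ (n + 1)) ⟨3, n + 1, Nat.prime_three.prime, by omega, rfl⟩
    (Nat.Coprime.pow_left _ (by norm_num)) M K hodd (Or.inl (dvd_pow_self 3 (by omega)))
    fun l hl hlD => ?_).1
  have h3 : l ≠ 3 := by
    rintro rfl
    rcases h.pr 3 hl hlD with h5 | h5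
    · have := h5.2.1
      omega
    · have := h5.2.1
      omega
  have hn3 : ¬ 3 ∣ l := fun h => h3 ((Nat.prime_dvd_prime_iff_eq Nat.prime_three hl).1 h).symm
  refine ⟨fun hd => h3 ((Nat.prime_dvd_prime_iff_eq hl Nat.prime_three).1 (hl.dvd_of_dvd_pow hd)),
    inert9 (n := n) K hodd hl ?_⟩
  have := h9 l hl hlD
  omega

/-- one split prime -/
theorem dt_one (H : Pool.Agent.Y682.XF.Parts) {p : ℕ} {S : Finset ℕ} (hp : Split p)
    (hS : ∀ q ∈ S, Inert q) (hN : ¬ 8 ∣ NN (∏ q ∈ S, q) p) : Dt (p * ∏ q ∈ S, q) := by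
  have hSp : ∀ q ∈ S, q.Prime := fun q hq => (hS q hq).1
  refine ⟨?_, ?_, ?_, one_Q H hp hS hN rfl⟩
  · rw [Int.squarefree_natCast, Nat.squarefree_mul_iff]
    exact ⟨(Nat.Prime.coprime_iff_not_dvd hp.1).2 (split_not_dvd hp hS), hp.1.squarefree,
      squarefree_prod hSp⟩
  · have h1 := hp.2.1
    rw [Nat.mul_mod, prod_mod_four hS, show p % 4 = 1 by omega]
  · intro l hl hlD
    rcases hl.dvd_mul.1 hlD with h | h
    · rw [(Nat.prime_dvd_prime_iff_eq hl hp.1).1 h]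
      exact Or.inl hp
    · exact Or.inr (hS l (dvd_prod_primes hSp hl h))

/-- two split primes -/
theorem dt_two (H : Pool.Agent.Y682.XF.Parts) {p1 p2 : ℕ} {S : Finset ℕ} (hne : p1 ≠ p2)
    (h1 : Split p1) (h2 : Split p2) (hS : ∀ q ∈ S, Inert q) (hN : Cond2 p1 p2 (∏ q ∈ S, q)) :
    Dt (p1 * p2 * ∏ q ∈ S, q) := by
  have hSp : ∀ q ∈ S, q.Prime := fun q hq => (hS q hq).1
  refine ⟨Int.squarefree_natCast.2 (two_sqf hne h1 h2 hS), ?_, ?_, two_Q H hne h1 h2 hS hN rfl⟩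
  · have a1 := h1.2.1
    have a2 := h2.2.1
    have a3 : p1 * p2 % 4 = 1 := by
      rw [Nat.mul_mod, show p1 % 4 = 1 by omega, show p2 % 4 = 1 by omega]
    rw [Nat.mul_mod, prod_mod_four hS, a3]
  · intro l hl hlD
    rcases hl.dvd_mul.1 hlD with h | h
    · rcases hl.dvd_mul.1 h with h | h
      · rw [(Nat.prime_dvd_prime_iff_eq hl h1.1).1 h]
        exact Or.inl h1
      · rw [(Nat.prime_dvd_prime_iff_eq hl h2.1).1 h]
        exact Or.inl h2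
    · exact Or.inr (hS l (dvd_prod_primes hSp hl h))

end Pool.Agent.U115.TP
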