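import Pool.Agent.Y514.XF.Qval
import Pool.Agent.Y687.K2.Rec2
import Pool.Agent.Y687.K2.Main2

/-!
# The exact power of two in the central values
-/

set_option autoImplicit false
set_option linter.style.haveILetI false

open Finset

namespace Pool.Agent.U115.TP

open Pool.Agent.W97.MT (E14 ap II II_conj II_add_one)
open Pool.Agent.Y687
open Pool.Agent.Y682.XT (II_re triv_val val_neg_unit)
open Pool.Agent.Y275.XD (sum_units)

/-- the sum of the integrals in terms of the sum of the symbols -/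
theorem sum_SS {s : ℚ → ℤ} {Op : ℝ} (hv : ∀ r : ℚ, (3 : ℝ) * (II r).re = s r * Op)
    {f : ℕ} [NeZero f] (h1 : 1 < f) (hf4 : f % 4 = 1) {ρ : DirichletCharacter ℂ f}
    (hρ : ∀ u : (ZMod f)ˣ, ρ (u : ZMod f) = (jacobiSym ((u : ZMod f).val : ℤ) f : ℂ)) :
    ∑ u : (ZMod f)ˣ, ρ (u : ZMod f) * II (((u : ZMod f).val : ℚ) / f) =
      (Op / 3 : ℂ) * ((SS s f f : ℤ) : ℂ) := by
  have hconj : ∑ u : (ZMod f)ˣ, ρ (u : ZMod f) * II (((u : ZMod f).val : ℚ) / f) =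
      ∑ u : (ZMod f)ˣ, ρ (u : ZMod f) *
        (starRingEnd ℂ) (II (((u : ZMod f).val : ℚ) / f)) := by
    refine Fintype.sum_equiv (Equiv.neg (ZMod f)ˣ) _ _ fun u => ?_
    rw [Equiv.neg_apply]
    have h4 : II (((u : ZMod f).val : ℚ) / f) =
        (starRingEnd ℂ) (II ((((-u : (ZMod f)ˣ) : ZMod f).val : ℚ) / f)) := by
      rw [val_neg_unit h1, ← II_conj]
      rw [← II_add_one (-(((f - (u : ZMod f).val : ℕ) : ℚ) / f))]
      congr 1
      have hf0 : (f : ℚ) ≠ 0 := by exact_mod_cast NeZero.ne f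
      rw [Nat.cast_sub (ZMod.val_lt (u : ZMod f)).le]
      field_simp
      ring
    have h5 : ρ ((-u : (ZMod f)ˣ) : ZMod f) = ρ (u : ZMod f) := by
      rw [hρ, hρ, val_neg_unit h1]
      congr 1
      have e1 : jacobiSym ((f - (u : ZMod f).val : ℕ) : ℤ) f =
          jacobiSym (-1 * ((u : ZMod f).val : ℤ)) f := by
        refine jacobiSym.mod_left' ?_
        rw [Nat.cast_sub (ZMod.val_lt (u : ZMod f)).le]
        rw [show (f : ℤ) - ((u : ZMod f).val : ℤ) = -1 * ((u : ZMod f).val : ℤ) + f by ring,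
          Int.add_emod_right]
      have e2 : jacobiSym (-1) f = 1 := by
        rw [jacobiSym.at_neg_one (Nat.odd_iff.2 (by omega)),
          ZMod.χ₄_nat_one_mod_four hf4]
      rw [e1, jacobiSym.mul_left, e2, one_mul]
    rw [h4, h5]
  have h6 : 2 * ∑ u : (ZMod f)ˣ, ρ (u : ZMod f) * II (((u : ZMod f).val : ℚ) / f) =
      2 * ((Op / 3 : ℂ) * ((SS s f f : ℤ) : ℂ)) := by
    rw [two_mul]
    nth_rewrite 2 [hconj]
    rw [← Finset.sum_add_distrib]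
    have h7 : ∀ u : (ZMod f)ˣ, ρ (u : ZMod f) * II (((u : ZMod f).val : ℚ) / f) +
        ρ (u : ZMod f) * (starRingEnd ℂ) (II (((u : ZMod f).val : ℚ) / f)) =
        (fun a : ℕ => (2 * (Op / 3 : ℂ)) * ((jacobiSym (a : ℤ) f : ℂ) *
          ((s ((a : ℚ) / f) : ℤ) : ℂ))) (u : ZMod f).val := by
      intro u
      rw [← mul_add, Complex.add_conj, hρ]
      push_cast
      rw [II_re hv]
      ring
    rw [Finset.sum_congr rfl fun u _ => h7 u, sum_units (fun a : ℕ => (2 * (Op / 3 : ℂ)) *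
      ((jacobiSym (a : ℤ) f : ℂ) * ((s ((a : ℚ) / f) : ℤ) : ℂ)))]
    unfold SS
    push_cast
    rw [Finset.mul_sum, Finset.mul_sum]
    refine Finset.sum_congr rfl fun a _ => ?_
    ring
  exact mul_left_cancel₀ two_ne_zero h6

/-- the exact power of two, one split prime -/
theorem V_one {s : ℚ → ℤ} (hs : Symb s (fun q => ap E14 q)) {p : ℕ} {S : Finset ℕ} (hp : Split p)
    (hS : ∀ q ∈ S, Inert q) (hN : ¬ 8 ∣ NN (∏ q ∈ S, q) p) :
    V (S.card + 2) (SS s (p * ∏ q ∈ S, q) (p * ∏ q ∈ S, q)) := by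
  obtain ⟨k1, k2, k3, k4⟩ := split_sp hp
  have h8 := (split_facts hp hS hN).1
  have hII : ∀ q ∈ S, isII (fun q => ap E14 q) q := fun q hq =>
    II_facts q (hS q hq).1 (hS q hq).2.1 (hS q hq).2.2
  have h := sum_split hs p k1 k2 k3 k4 S hII (split_notMem hp hS)
  obtain ⟨x, hx⟩ := (split_sp hp).xx (T := S) (fun q hq => (hS q hq).1) (split_notMem hp hS)
  have hx' : ap E14 p - 2 * jacobiSym p (∏ q ∈ S, q) = 4 * x := hx
  have h' : (2 : ℤ) ^ (S.card + 3) ∣ SS s (p * ∏ q ∈ S, q) (p * ∏ q ∈ S, q)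
      - 2 ^ S.card * (4 * x) := by
    rw [← hx']
    exact h
  rw [hx'] at h8
  obtain ⟨y, hy⟩ : ∃ y, x = 2 * y + 1 := ⟨x / 2, by omega⟩
  obtain ⟨z, hz⟩ := h'
  refine ⟨y + z, ?_⟩
  rw [hy] at hz
  rw [pow_add] at hz ⊢
  linear_combination hz

/-- the exact power of two, two split primes -/
theorem V_two {s : ℚ → ℤ} (hs : Symb2 s (fun q => ap E14 q)) {p1 p2 : ℕ} {S : Finset ℕ}
    (hne : p1 ≠ p2) (h1 : Split p1) (h2 : Split p2)
    (hS : ∀ q ∈ S, Inert q) (hN : Cond2 p1 p2 (∏ q ∈ S, q)) :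
    V (S.card + 4) (SS s (p1 * p2 * ∏ q ∈ S, q) (p1 * p2 * ∏ q ∈ S, q)) := by
  classical
  have hcop12 : Nat.Coprime p1 p2 := (Nat.coprime_primes h1.1 h2.1).2 hne
  haveI : Fact p1.Prime := ⟨h1.1⟩
  haveI : Fact p2.Prime := ⟨h2.1⟩
  have hj : jacobiSym p1 p2 = 1 ∨ jacobiSym p1 p2 = -1 := by
    refine jacobiSym.eq_one_or_neg_one ?_
    rw [Int.gcd_natCast_natCast]
    exact hcop12
  have hp10 : ((p1 : ℤ) : ZMod p2) ≠ 0 := by
    rw [Ne, ZMod.intCast_zmod_eq_zero_iff_dvd, Int.natCast_dvd_natCast]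
    intro h
    exact hne ((Nat.prime_dvd_prime_iff_eq h2.1 h1.1).1 h).symm
  have hj1 : jacobiSym p1 p2 = 1 ↔ IsSquare (p1 : ZMod p2) := by
    rw [← jacobiSym.legendreSym.to_jacobiSym, legendreSym.eq_one_iff _ hp10]
    push_cast
    exact Iff.rfl
  have hII : ∀ q ∈ S, isII (fun q => ap E14 q) q := fun q hq =>
    II_facts q (hS q hq).1 (hS q hq).2.1 (hS q hq).2.2
  have hprime : ∀ T ⊆ S, ∀ q ∈ T, q.Prime := fun T hT q hq => (hS q (hT hq)).1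
  have hp1S := split_notMem h1 hS
  have hp2S := split_notMem h2 hS
  have g1 := split_sp h1
  have g2 := split_sp h2
  obtain ⟨x1, hx1⟩ : ∃ x1 : Finset ℕ → ℤ, ∀ T ⊆ S,
      ap E14 p1 - 2 * jacobiSym p1 (∏ q ∈ T, q) = 4 * x1 T := by
    refine ⟨fun T => (ap E14 p1 - 2 * jacobiSym p1 (∏ q ∈ T, q)) / 4, fun T hT => ?_⟩
    obtain ⟨x, hx⟩ := g1.xx (hprime T hT) (fun h => hp1S (hT h))
    have hx' : ap E14 p1 - 2 * jacobiSym p1 (∏ q ∈ T, q) = 4 * x := hx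
    show _ = 4 * ((ap E14 p1 - 2 * jacobiSym p1 (∏ q ∈ T, q)) / 4)
    rw [hx']
    omega
  obtain ⟨x2, hx2⟩ : ∃ x2 : Finset ℕ → ℤ, ∀ T ⊆ S,
      ap E14 p2 - 2 * jacobiSym p2 (∏ q ∈ T, q) = 4 * x2 T := by
    refine ⟨fun T => (ap E14 p2 - 2 * jacobiSym p2 (∏ q ∈ T, q)) / 4, fun T hT => ?_⟩
    obtain ⟨x, hx⟩ := g2.xx (hprime T hT) (fun h => hp2S (hT h))
    have hx' : ap E14 p2 - 2 * jacobiSym p2 (∏ q ∈ T, q) = 4 * x := hx
    show _ = 4 * ((ap E14 p2 - 2 * jacobiSym p2 (∏ q ∈ T, q)) / 4)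
    rw [hx']
    omega
  have h12 : p1 ∉ insert p2 S := by
    rw [Finset.mem_insert, not_or]
    exact ⟨hne, hp1S⟩
  have key : ∀ ε : ℤ, ((jacobiSym p1 p2 = 1 ∧ ε = 0) ∨ (jacobiSym p1 p2 = -1 ∧ ε = 1)) →
      ∃ k : ℤ, SS s (p1 * p2 * ∏ q ∈ S, q) (p1 * p2 * ∏ q ∈ S, q) =
        2 ^ (S.card + 4) * (x1 S * x2 S + ε * (x1 S + x2 S) + 2 * k) := by
    intro ε hε
    obtain ⟨k, hk⟩ := sum_split2 hs g1 g2 hne hε x1 x2 S hII hp1S hp2S
      (fun T hT => hx1 T hT) (fun T hT => hx2 T hT)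
    rw [Finset.prod_insert h12, Finset.prod_insert hp2S] at hk
    refine ⟨k, ?_⟩
    rw [mul_assoc p1 p2]
    exact hk
  have odd1 : ¬ 8 ∣ NN (∏ q ∈ S, q) p1 → ∃ y, x1 S = 2 * y + 1 := by
    intro h3
    have h4 := (split_facts h1 hS h3).1
    rw [hx1 S (Finset.Subset.refl _)] at h4
    exact ⟨x1 S / 2, by omega⟩
  have odd2 : ¬ 8 ∣ NN (∏ q ∈ S, q) p2 → ∃ y, x2 S = 2 * y + 1 := by
    intro h3
    have h4 := (split_facts h2 hS h3).1
    rw [hx2 S (Finset.Subset.refl _)] at h4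
    exact ⟨x2 S / 2, by omega⟩
  have fin1 : jacobiSym p1 p2 = -1 → (¬ 8 ∣ NN (∏ q ∈ S, q) p1 ∨ ¬ 8 ∣ NN (∏ q ∈ S, q) p2) →
      V (S.card + 4) (SS s (p1 * p2 * ∏ q ∈ S, q) (p1 * p2 * ∏ q ∈ S, q)) := by
    intro hj' hab
    obtain ⟨k, hk⟩ := key 1 (Or.inr ⟨hj', rfl⟩)
    rcases hab with ha | hb
    · obtain ⟨y, hy⟩ := odd1 ha
      refine ⟨y * x2 S + x2 S + y + k, ?_⟩
      rw [hk, hy]
      ring
    · obtain ⟨y, hy⟩ := odd2 hb
      refine ⟨x1 S * y + x1 S + y + k, ?_⟩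
      rw [hk, hy]
      ring
  rcases hN with ⟨a, b⟩ | ⟨a, b⟩
  · rcases hj with hj' | hj'
    · obtain ⟨k, hk⟩ := key 0 (Or.inl ⟨hj', rfl⟩)
      obtain ⟨y1, hy1⟩ := odd1 a
      obtain ⟨y2, hy2⟩ := odd2 b
      refine ⟨2 * y1 * y2 + y1 + y2 + k, ?_⟩
      rw [hk, hy1, hy2]
      ring
    · exact fin1 hj' (Or.inl a)
  · exact fin1 (hj.resolve_left fun h => a (hj1.1 h)) b

end Pool.Agent.U115.TP
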