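import Pool.Agent.U115.TP.Loc
import Pool.Agent.Y687.K2.Desc2p

/-!
# The two isogeny Selmer groups of the twists of `X_0(14)` by `(∏ p) m`
-/

set_option autoImplicit false
set_option linter.style.haveILetI false

namespace Pool.Agent.U115.TP

open Finset
open Pool.Agent.Y687 (Rt prime_cast_ne key16a key16b mod4_16 sq16)

/-- the local condition at a split prime dividing `d`, first descent -/
theorem rt1 {p q m : ℕ} [hp : Fact p.Prime] {M d d1 : ℤ} (h : LSol (13 * M) (128 * M ^ 2) d p)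
    (hd : Squarefree d) (hM : Squarefree M) (hMM : M = p * (q * m)) (hdd : d = p * d1)
    (hs : IsSquare ((d1 : ZMod p) * (q : ZMod p))) : ¬ Rt p m := by
  intro hR
  have hp0 : (p : ℤ) ≠ 0 := by exact_mod_cast hp.out.ne_zero
  obtain ⟨d1', M1, hdd', hMM', k1, w, e, k2, k3⟩ := h.root hd hM ⟨_, hdd⟩ ⟨_, hMM⟩
  obtain rfl : d1' = d1 := mul_left_cancel₀ hp0 (hdd'.symm.trans hdd)
  obtain rfl : M1 = q * m := mul_left_cancel₀ hp0 (hMM'.symm.trans hMM)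
  push_cast at k1 k3
  have hq0 : (q : ZMod p) ≠ 0 := left_ne_zero_of_mul k1
  obtain ⟨r, hr⟩ := hs
  refine hR ((d1' : ZMod p) * w ^ 2 / ((q : ZMod p) * e ^ 2)) ?_ ?_
  · field_simp
    linear_combination k3
  · refine ⟨r * w / ((q : ZMod p) * e), ?_⟩
    field_simp
    linear_combination w ^ 2 * hr

/-- the local condition at a split prime dividing `d`, second descent -/
theorem rt2 {p q m : ℕ} [hp : Fact p.Prime] (hp8 : p % 8 = 1) (hp7 : p ≠ 7)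
    (hsev : IsSquare (-7 : ZMod p)) {M d d1 : ℤ} (h : LSol (-26 * M) (-343 * M ^ 2) d p)
    (hd : Squarefree d) (hM : Squarefree M) (hMM : M = p * (q * m)) (hdd : d = p * d1)
    (hs : IsSquare ((d1 : ZMod p) * (q : ZMod p))) : ¬ Rt p m := by
  intro hR
  have hp0 : (p : ℤ) ≠ 0 := by exact_mod_cast hp.out.ne_zero
  obtain ⟨d1', M1, hdd', hMM', k1, w, e, k2, k3⟩ := h.root hd hM ⟨_, hdd⟩ ⟨_, hMM⟩
  obtain rfl : d1' = d1 := mul_left_cancel₀ hp0 (hdd'.symm.trans hdd)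
  obtain rfl : M1 = q * m := mul_left_cancel₀ hp0 (hMM'.symm.trans hMM)
  push_cast at k1 k3
  have hq0 : (q : ZMod p) ≠ 0 := left_ne_zero_of_mul k1
  obtain ⟨r, hr⟩ := hs
  have n2' : (2 : ZMod p) ≠ 0 := by
    exact_mod_cast prime_cast_ne hp.out 2 Nat.prime_two (by rintro rfl; omega)
  obtain ⟨i, hi⟩ := (ZMod.exists_sq_eq_neg_one_iff (p := p)).2 (by omega)
  obtain ⟨δ, hδ⟩ := hsev
  have hw0 : w ≠ 0 := by
    intro hw0
    rw [hw0] at k3
    have h6 : (343 : ZMod p) * (((q : ZMod p) * (m : ZMod p)) * e ^ 2) ^ 2 = 0 := by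
      linear_combination -k3
    rcases mul_eq_zero.1 h6 with h7 | h7
    · have n7' : (7 : ZMod p) ≠ 0 := by exact_mod_cast prime_cast_ne hp.out 7 (by norm_num) hp7
      rw [show (343 : ZMod p) = 7 ^ 3 by norm_num] at h7
      exact pow_ne_zero _ n7' h7
    · exact pow_ne_zero _ (mul_ne_zero k1 (pow_ne_zero _ k2)) h7
  have hd10 : (d1' : ZMod p) ≠ 0 := by
    rw [Ne, ZMod.intCast_zmod_eq_zero_iff_dvd]
    rintro ⟨k, hk⟩
    have := hd p ⟨k, by rw [hdd, hk]; ring⟩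
    exact (Nat.prime_iff_prime_int.1 hp.out).not_isUnit this
  have hr0 : r ≠ 0 := by
    rintro rfl
    apply mul_ne_zero hd10 hq0
    rw [hr]; ring
  set y : ZMod p := r * w / ((q : ZMod p) * e) with hy
  have hy0 : y ≠ 0 := div_ne_zero (mul_ne_zero hr0 hw0) (mul_ne_zero hq0 k2)
  have hy2 : y ^ 2 = (d1' : ZMod p) * w ^ 2 / ((q : ZMod p) * e ^ 2) := by
    rw [hy]
    field_simp
    linear_combination -hr
  have hx : (y ^ 2) ^ 2 - 26 * (m : ZMod p) * y ^ 2 - 343 * (m : ZMod p) ^ 2 = 0 := by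
    rw [hy2]
    field_simp
    linear_combination k3
  set ρ : ZMod p := (m : ZMod p) * (-13 + 7 * δ) / 2 with hρ
  have hρ2 : 2 * ρ = (m : ZMod p) * (-13 + 7 * δ) := by rw [hρ]; field_simp
  have n4 : (4 : ZMod p) ≠ 0 := by
    rw [show (4 : ZMod p) = 2 * 2 by norm_num]; exact mul_ne_zero n2' n2'
  have hroot : ρ ^ 2 + 13 * (m : ZMod p) * ρ + 128 * (m : ZMod p) ^ 2 = 0 := by
    apply mul_left_cancel₀ n4
    linear_combination (2 * ρ + (m : ZMod p) * (-13 + 7 * δ) + 26 * (m : ZMod p)) * hρ2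
      - 49 * (m : ZMod p) ^ 2 * hδ
  apply hR ρ hroot
  refine ⟨i * (ρ + (13 * (m : ZMod p) - y ^ 2) / 2) / y, ?_⟩
  have e1 : 2 * ((13 * (m : ZMod p) - y ^ 2) / 2) = 13 * (m : ZMod p) - y ^ 2 := by field_simp
  set t : ZMod p := (13 * (m : ZMod p) - y ^ 2) / 2 with ht
  have e2 : -(y ^ 2) * ρ = (ρ + t) ^ 2 := by
    apply mul_left_cancel₀ n4
    linear_combination (-(4 * ρ + 2 * t + 13 * (m : ZMod p) - y ^ 2)) * e1 - 4 * hroot - hx
  rw [div_mul_div_comm, eq_div_iff (mul_ne_zero hy0 hy0)]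
  linear_combination (-1 : ZMod p) * e2 + ((ρ + t) ^ 2) * hi

/-- the hypotheses of the descent for `M = (∏ p) m` -/
structure HP (m : ℕ) (P : Finset ℕ) : Prop where
  m4 : m % 4 = 1
  pr : ∀ p ∈ P, p.Prime ∧ p % 8 = 1 ∧ p ≠ 7 ∧ IsSquare (-7 : ZMod p)
  sqf : Squarefree ((((∏ p ∈ P, p) * m : ℕ)) : ℤ)
  two : ∀ q : ℕ, q.Prime → q ∣ m → q ≠ 2 ∧ q ≠ 7 ∧ ¬ IsSquare (-7 : ZMod q) ∧ ¬ IsSquare (2 : ZMod q)
  ker : ∀ J ⊆ P, J.Nonempty → (∃ p ∈ P \ J, ¬ IsSquare ((∏ q ∈ J, q : ℕ) : ZMod p)) ∨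
    (∃ p ∈ J, IsSquare ((∏ q ∈ P \ J, q : ℕ) : ZMod p) ∧ Rt p m)

/-- a squarefree integer with one prime factor at most -/
theorem one_prime {u : ℤ} {l : ℕ} (hu : Squarefree u) (h : ∀ q : ℕ, q.Prime → (q : ℤ) ∣ u → q = l) :
    u.natAbs = 1 ∨ u.natAbs = l := by
  by_cases h1 : u.natAbs = 1
  · exact Or.inl h1
  right
  obtain ⟨q, hq, hqu⟩ := Nat.exists_prime_and_dvd h1
  have hql := h q hq (Int.natCast_dvd.2 hqu)
  subst hql
  obtain ⟨v, hv⟩ := hqu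
  by_cases h2 : v = 1
  · rw [hv, h2, mul_one]
  exfalso
  obtain ⟨r, hr, hrv⟩ := Nat.exists_prime_and_dvd h2
  have hrl := h r hr (Int.natCast_dvd.2 (hv ▸ hrv.mul_left _))
  subst hrl
  have h3 : Squarefree u.natAbs := Int.squarefree_natAbs.2 hu
  obtain ⟨t, ht⟩ := hrv
  have h4 := h3 r ⟨t, by rw [hv, ht]; ring⟩
  rw [Nat.isUnit_iff] at h4
  exact hr.one_lt.ne' h4

variable {m : ℕ} {P : Finset ℕ}

/-- primes dividing `M` -/
theorem HP.cop_case (H : HP m P) {q : ℕ} (hq : q.Prime)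
    (h : (q : ℤ) ∣ (((∏ p ∈ P, p) * m : ℕ) : ℤ)) : q ∈ P ∨ q ∣ m := by
  have h1 : q ∣ (∏ p ∈ P, p) * m := Int.natCast_dvd_natCast.1 h
  rcases hq.dvd_mul.1 h1 with h2 | h2
  · left
    rw [hq.prime.dvd_finsetProd_iff] at h2
    obtain ⟨r, hr, hqr⟩ := h2
    rwa [(Nat.prime_dvd_prime_iff_eq hq (H.pr r hr).1).1 hqr]
  · exact Or.inr h2

/-- the decomposition of `d` -/
theorem HP.shape (H : HP m P) {d : ℤ} (hd : Squarefree d) :
    ∃ (J : Finset ℕ) (u : ℤ), J ⊆ P ∧ (∀ p ∈ P, (p ∈ J ↔ (p : ℤ) ∣ d)) ∧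
      d = ((∏ q ∈ J, q : ℕ) : ℤ) * u ∧ ∀ p ∈ P, ¬ (p : ℤ) ∣ u := by
  classical
  set J : Finset ℕ := P.filter (fun p : ℕ => (p : ℤ) ∣ d) with hJ
  have hJP : J ⊆ P := Finset.filter_subset _ _
  have hdvd : ∏ q ∈ J, q ∣ d.natAbs := by
    refine Finset.prod_primes_dvd _ (fun q hq => (H.pr q (hJP hq)).1.prime) fun q hq => ?_
    exact Int.natCast_dvd.1 (Finset.mem_filter.1 hq).2
  obtain ⟨u, hu⟩ : ((∏ q ∈ J, q : ℕ) : ℤ) ∣ d := Int.natCast_dvd.2 hdvd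
  refine ⟨J, u, hJP, fun p hp => ?_, hu, fun p hp hpu => ?_⟩
  · rw [hJ, Finset.mem_filter]
    exact ⟨fun h => h.2, fun h => ⟨hp, h⟩⟩
  · have hpp := (H.pr p hp).1
    have h1 : (p : ℤ) ∣ d := hu ▸ hpu.mul_left _
    have h2 : p ∈ J := Finset.mem_filter.2 ⟨hp, h1⟩
    have h3 : (p : ℤ) ∣ ((∏ q ∈ J, q : ℕ) : ℤ) :=
      Int.natCast_dvd_natCast.2 (Finset.dvd_prod_of_mem _ h2)
    have h4 := hd (p : ℤ) (by rw [hu]; exact mul_dvd_mul h3 hpu)
    exact (Nat.prime_iff_prime_int.1 hpp).not_isUnit h4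

/-- the product of the other primes -/
theorem erase_prod {P : Finset ℕ} {p : ℕ} (hp : p ∈ P) (m : ℕ) :
    ((((∏ p ∈ P, p) * m : ℕ)) : ℤ) = p * ((∏ q ∈ P.erase p, q : ℕ) * m) := by
  rw [← Finset.mul_prod_erase P (fun q => q) hp]
  push_cast
  ring

/-- the class of `d` at the primes of `J` -/
theorem sq_erase {P J : Finset ℕ} (hJ : J ⊆ P) {p : ℕ} [Fact p.Prime] (hp : p ∈ J) {u : ℤ}
    (hu : IsSquare (u : ZMod p)) (hs : IsSquare ((∏ q ∈ P \ J, q : ℕ) : ZMod p)) :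
    IsSquare (((((∏ q ∈ J.erase p, q : ℕ) : ℤ) * u : ℤ) : ZMod p) *
      ((∏ q ∈ P.erase p, q : ℕ) : ZMod p)) := by
  classical
  have h1 : P.erase p = (P \ J) ∪ (J.erase p) := by
    ext q
    simp only [Finset.mem_erase, Finset.mem_union, Finset.mem_sdiff]
    constructor
    · rintro ⟨h1, h2⟩
      by_cases h3 : q ∈ J
      · exact Or.inr ⟨h1, h3⟩
      · exact Or.inl ⟨h2, h3⟩
    · rintro (⟨h1, h2⟩ | ⟨h1, h2⟩)
      · exact ⟨fun h => h2 (h ▸ hp), h1⟩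
      · exact ⟨h1, hJ h2⟩
  have hdis : Disjoint (P \ J) (J.erase p) :=
    Finset.disjoint_left.2 fun q h1 h2 => (Finset.mem_sdiff.1 h1).2 (Finset.mem_of_mem_erase h2)
  rw [h1, Finset.prod_union hdis]
  obtain ⟨a, ha⟩ := hu
  obtain ⟨b, hb⟩ := hs
  refine ⟨((∏ q ∈ J.erase p, q : ℕ) : ZMod p) * a * b, ?_⟩
  push_cast at hb ⊢
  rw [ha, hb]
  ring

/-- the primes of `m` do not divide `d`, first descent -/
theorem HP.no_m1 (H : HP m P) {d : ℤ} (hd : Squarefree d) {q : ℕ} [hq : Fact q.Prime]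
    (h : LSol (13 * (((∏ p ∈ P, p) * m : ℕ) : ℤ)) (128 * (((∏ p ∈ P, p) * m : ℕ) : ℤ) ^ 2) d q)
    (hqd : (q : ℤ) ∣ d) : ¬ q ∣ m := by
  intro hqm
  obtain ⟨n2, n7, hs7, hs2⟩ := H.two q hq.out hqm
  have hqM : (q : ℤ) ∣ (((∏ p ∈ P, p) * m : ℕ) : ℤ) := Int.natCast_dvd_natCast.2 (hqm.mul_left _)
  obtain ⟨d1, M1, -, -, k1, w, e, k2, k3⟩ := h.root hd H.sqf hqd hqM
  have n7' : (7 : ZMod q) ≠ 0 := by exact_mod_cast prime_cast_ne hq.out 7 (by norm_num) n7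
  set z : ZMod q := (M1 : ZMod q) * e ^ 2 with hz
  have hz0 : z ≠ 0 := mul_ne_zero k1 (pow_ne_zero 2 k2)
  set u : ZMod q := (d1 : ZMod q) * w ^ 2 with hu
  apply hs7
  refine ⟨(2 * u + 13 * z) / (7 * z), ?_⟩
  have h77 : (7 * z) * (7 * z) ≠ 0 := mul_ne_zero (mul_ne_zero n7' hz0) (mul_ne_zero n7' hz0)
  rw [div_mul_div_comm, eq_div_iff h77]
  push_cast at k3
  linear_combination -4 * k3

/-- the primes of `m` do not divide `d`, second descent -/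
theorem HP.no_m2 (H : HP m P) {d : ℤ} (hd : Squarefree d) {q : ℕ} [hq : Fact q.Prime]
    (h : LSol (-26 * (((∏ p ∈ P, p) * m : ℕ) : ℤ)) (-343 * (((∏ p ∈ P, p) * m : ℕ) : ℤ) ^ 2) d q)
    (hqd : (q : ℤ) ∣ d) : ¬ q ∣ m := by
  intro hqm
  obtain ⟨n2, n7, hs7, hs2⟩ := H.two q hq.out hqm
  have hqM : (q : ℤ) ∣ (((∏ p ∈ P, p) * m : ℕ) : ℤ) := Int.natCast_dvd_natCast.2 (hqm.mul_left _)
  obtain ⟨d1, M1, -, -, k1, w, e, k2, k3⟩ := h.root hd H.sqf hqd hqM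
  have n2' : (2 : ZMod q) ≠ 0 := by exact_mod_cast prime_cast_ne hq.out 2 Nat.prime_two n2
  have n16 : (16 : ZMod q) ≠ 0 := by
    rw [show (16 : ZMod q) = 2 ^ 4 by norm_num]; exact pow_ne_zero _ n2'
  set z : ZMod q := (M1 : ZMod q) * e ^ 2 with hz
  have hz0 : z ≠ 0 := mul_ne_zero k1 (pow_ne_zero 2 k2)
  set u : ZMod q := (d1 : ZMod q) * w ^ 2 with hu
  apply hs2
  refine ⟨(u - 13 * z) / (16 * z), ?_⟩
  have h77 : (16 * z) * (16 * z) ≠ 0 := mul_ne_zero (mul_ne_zero n16 hz0) (mul_ne_zero n16 hz0)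
  rw [div_mul_div_comm, eq_div_iff h77]
  push_cast at k3
  linear_combination -k3

/-- the first Selmer group -/
theorem HP.sel1 (H : HP m P) {d : ℤ} (hd : Squarefree d) (hpos : 0 < d)
    (h : ∀ (l : ℕ) [Fact l.Prime],
      LSol (13 * (((∏ p ∈ P, p) * m : ℕ) : ℤ)) (128 * (((∏ p ∈ P, p) * m : ℕ) : ℤ) ^ 2) d l) :
    d = 1 ∨ d = 2 := by
  classical
  obtain ⟨J, u, hJP, hJ, hdu, hu⟩ := H.shape hd
  have husf : Squarefree u := by rw [hdu] at hd; exact hd.of_mul_right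
  have hprodpos : (0 : ℤ) < ((∏ q ∈ J, q : ℕ) : ℤ) := by
    exact_mod_cast Finset.prod_pos fun q hq => (H.pr q (hJP hq)).1.pos
  have hupos : 0 < u := by
    rw [hdu] at hpos
    exact (mul_pos_iff_of_pos_left hprodpos).1 hpos
  -- the unit part
  have hu12 : u = 1 ∨ u = 2 := by
    have h1 := one_prime (l := 2) husf fun q hq hqu => by
      haveI : Fact q.Prime := ⟨hq⟩
      have hqd : (q : ℤ) ∣ d := hdu ▸ hqu.mul_left _
      have h2 := (h q).dvdB hd hqd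
      have hqP := Nat.prime_iff_prime_int.1 hq
      rcases hqP.dvd_or_dvd h2 with h3 | h3
      · have h4 : (q : ℤ) ∣ ((2 : ℕ) : ℤ) := by
          refine hqP.dvd_of_dvd_pow (n := 7) ?_
          norm_num
          exact h3
        exact (Nat.prime_dvd_prime_iff_eq hq Nat.prime_two).1 (Int.natCast_dvd_natCast.1 h4)
      · exfalso
        rcases H.cop_case hq (hqP.dvd_of_dvd_pow h3) with h4 | h4
        · exact hu q h4 hqu
        · exact H.no_m1 hd (h q) hqd h4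
    omega
  have husq : ∀ p ∈ P, IsSquare (u : ZMod p) := by
    intro p hp
    obtain ⟨pp, p8, -, -⟩ := H.pr p hp
    haveI : Fact p.Prime := ⟨pp⟩
    rcases hu12 with rfl | rfl
    · exact ⟨1, by push_cast; ring⟩
    · push_cast
      exact (ZMod.exists_sq_eq_two_iff (by rintro rfl; omega)).2 (Or.inl p8)
  rcases J.eq_empty_or_nonempty with hJe | hJn
  · rw [hJe, Finset.prod_empty, Nat.cast_one, one_mul] at hdu
    rw [hdu]
    exact hu12
  exfalso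
  rcases H.ker J hJP hJn with ⟨p, hp, hns⟩ | ⟨p, hp, hs, hR⟩
  · rw [Finset.mem_sdiff] at hp
    obtain ⟨pp, p8, -, -⟩ := H.pr p hp.1
    haveI : Fact p.Prime := ⟨pp⟩
    have hpd : ¬ (p : ℤ) ∣ d := fun h1 => hp.2 ((hJ p hp.1).2 h1)
    have hpM : (p : ℤ) ∣ (((∏ p ∈ P, p) * m : ℕ) : ℤ) :=
      Int.natCast_dvd_natCast.2 ((Finset.dvd_prod_of_mem _ hp.1).mul_right _)
    obtain ⟨τ, hτ⟩ : IsSquare (2 : ZMod p) :=
      (ZMod.exists_sq_eq_two_iff (by rintro rfl; omega)).2 (Or.inl p8)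
    have n2 : (2 : ZMod p) ≠ 0 := by
      exact_mod_cast prime_cast_ne pp 2 Nat.prime_two (by rintro rfl; omega)
    have hds := (h p).sq H.sqf hpd hpM (b := 8 * τ)
      (by push_cast; linear_combination 64 * hτ) (by
        have hτ0 : τ ≠ 0 := by rintro rfl; apply n2; rw [hτ]; ring
        have h8 : (8 : ZMod p) ≠ 0 := by
          rw [show (8 : ZMod p) = 2 ^ 3 by norm_num]; exact pow_ne_zero _ n2
        exact mul_ne_zero h8 hτ0)
    apply hns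
    rw [hdu] at hds
    push_cast at hds
    obtain ⟨r, hr⟩ := hds
    obtain ⟨s, hs⟩ := husq p hp.1
    have hu0 : (u : ZMod p) ≠ 0 := by
      rw [Ne, ZMod.intCast_zmod_eq_zero_iff_dvd]; exact hu p hp.1
    have hs0 : s ≠ 0 := by rintro rfl; apply hu0; rw [hs]; ring
    refine ⟨r / s, ?_⟩
    rw [div_mul_div_comm, eq_div_iff (mul_ne_zero hs0 hs0), ← hs]
    push_cast
    exact hr
  · obtain ⟨pp, p8, -, -⟩ := H.pr p (hJP hp)
    haveI : Fact p.Prime := ⟨pp⟩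
    have hdd : d = p * (((∏ q ∈ J.erase p, q : ℕ) : ℤ) * u) := by
      rw [hdu, ← Finset.mul_prod_erase J (fun q => q) hp]
      push_cast
      ring
    exact rt1 (h p) hd H.sqf (erase_prod (hJP hp) m) hdd (sq_erase hJP hp (husq p (hJP hp)) hs) hR

theorem even_cases (x : ZMod 16) : x ^ 2 = 0 ∨ x ^ 2 = 4 ∨ x ^ 2 = 1 ∨ x ^ 2 = 9 := by
  revert x; decide

/-- the second Selmer group -/
theorem HP.sel2 (H : HP m P) {d : ℤ} (hd : Squarefree d)
    (h : ∀ (l : ℕ) [Fact l.Prime],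
      LSol (-26 * (((∏ p ∈ P, p) * m : ℕ) : ℤ)) (-343 * (((∏ p ∈ P, p) * m : ℕ) : ℤ) ^ 2) d l) :
    d = 1 ∨ d = -7 := by
  classical
  obtain ⟨J, u, hJP, hJ, hdu, hu⟩ := H.shape hd
  have husf : Squarefree u := by rw [hdu] at hd; exact hd.of_mul_right
  -- the unit part
  have hu12 : u = 1 ∨ u = -1 ∨ u = 7 ∨ u = -7 := by
    have h1 := one_prime (l := 7) husf fun q hq hqu => by
      haveI : Fact q.Prime := ⟨hq⟩
      have hqd : (q : ℤ) ∣ d := hdu ▸ hqu.mul_left _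
      have h2 := (h q).dvdB hd hqd
      have hqP := Nat.prime_iff_prime_int.1 hq
      rcases hqP.dvd_or_dvd h2 with h3 | h3
      · have h4 : (q : ℤ) ∣ ((7 : ℕ) : ℤ) := by
          refine hqP.dvd_of_dvd_pow (n := 3) ?_
          norm_num
          exact (dvd_neg.1 h3)
        exact (Nat.prime_dvd_prime_iff_eq hq (by norm_num)).1 (Int.natCast_dvd_natCast.1 h4)
      · exfalso
        rcases H.cop_case hq (hqP.dvd_of_dvd_pow h3) with h4 | h4
        · exact hu q h4 hqu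
        · exact H.no_m2 hd (h q) hqd h4
    omega
  have husq : ∀ p ∈ P, IsSquare (u : ZMod p) := by
    intro p hp
    obtain ⟨pp, p8, -, hs⟩ := H.pr p hp
    haveI : Fact p.Prime := ⟨pp⟩
    obtain ⟨i, hi⟩ := (ZMod.exists_sq_eq_neg_one_iff (p := p)).2 (by omega)
    obtain ⟨δ, hδ⟩ := hs
    rcases hu12 with rfl | rfl | rfl | rfl
    · exact ⟨1, by push_cast; ring⟩
    · exact ⟨i, by push_cast; exact hi⟩
    · exact ⟨i * δ, by push_cast; linear_combination (-7 : ZMod p) * hi + (i * i) * hδ⟩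
    · exact ⟨δ, by push_cast; exact hδ⟩
  rcases J.eq_empty_or_nonempty with hJe | hJn
  · rw [hJe, Finset.prod_empty, Nat.cast_one, one_mul] at hdu
    have hM4 : ((((∏ p ∈ P, p) * m : ℕ)) : ℤ) % 4 = 1 := by
      have h1 : (∏ p ∈ P, p) % 4 = 1 := by
        refine Finset.prod_induction _ (fun n => n % 4 = 1) ?_ (by norm_num) ?_
        · intro a b ha hb
          rw [Nat.mul_mod, ha, hb]
        · intro p hp
          have := (H.pr p hp).2.1
          omega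
      have h2 : ((∏ p ∈ P, p) * m) % 4 = 1 := by rw [Nat.mul_mod, h1, H.m4]
      omega
    haveI : Fact (Nat.Prime 2) := ⟨Nat.prime_two⟩
    obtain ⟨w, e, N, hwe, h16⟩ := (h 2).mod16
    have hnot : ¬ ((w ^ 2 = 0 ∨ w ^ 2 = 4) ∧ (e ^ 2 = 0 ∨ e ^ 2 = 4)) := by
      have hd1 : (1 : ZMod 16) ≠ 0 := by decide
      have hd2 : (1 : ZMod 16) ≠ 4 := by decide
      have hd3 : (9 : ZMod 16) ≠ 0 := by decide
      have hd4 : (9 : ZMod 16) ≠ 4 := by decide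
      rintro ⟨a1, a2⟩
      rcases hwe with h1 | h1 | h1 | h1
      · rw [h1] at a1; exact a1.elim hd1 hd2
      · rw [h1] at a1; exact a1.elim hd3 hd4
      · rw [h1] at a2; exact a2.elim hd1 hd2
      · rw [h1] at a2; exact a2.elim hd3 hd4
    have hMc := mod4_16 _ hM4
    set M : ℤ := (((∏ p ∈ P, p) * m : ℕ) : ℤ) with hM
    clear_value M
    rw [hdu] at h16 ⊢
    rcases hu12 with rfl | rfl | rfl | rfl
    · exact Or.inl rfl
    · exfalso
      refine key16a (M : ZMod 16) (N ^ 2) hMc (sq16 _) (w ^ 2) (e ^ 2) (sq16 _) (sq16 _) hnot ?_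
      push_cast at h16
      linear_combination h16
    · exfalso
      refine key16b (M : ZMod 16) (N ^ 2) hMc (sq16 _) (w ^ 2) (e ^ 2) (sq16 _) (sq16 _) hnot ?_
      have h77 : (7 : ZMod 16) * 7 = 1 := by decide
      push_cast at h16
      have h16' : (7 : ZMod 16) * (7 * N ^ 2) = 7 * (49 * w ^ 4 - 182 * (M : ZMod 16) * w ^ 2 * e ^ 2 -
          343 * (M : ZMod 16) ^ 2 * e ^ 4) := by
        linear_combination 7 * h16
      have h3 : N ^ 2 = 7 * w ^ 4 - 26 * (M : ZMod 16) * w ^ 2 * e ^ 2 -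
          49 * (M : ZMod 16) ^ 2 * e ^ 4 := by
        linear_combination h16' - (N ^ 2 - 7 * w ^ 4 + 26 * (M : ZMod 16) * w ^ 2 * e ^ 2 +
          49 * (M : ZMod 16) ^ 2 * e ^ 4) * h77
      linear_combination h3
    · exact Or.inr rfl
  exfalso
  rcases H.ker J hJP hJn with ⟨p, hp, hns⟩ | ⟨p, hp, hs, hR⟩
  · rw [Finset.mem_sdiff] at hp
    obtain ⟨pp, p8, p7, hsev⟩ := H.pr p hp.1
    haveI : Fact p.Prime := ⟨pp⟩
    have hpd : ¬ (p : ℤ) ∣ d := fun h1 => hp.2 ((hJ p hp.1).2 h1)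
    have hpM : (p : ℤ) ∣ (((∏ p ∈ P, p) * m : ℕ) : ℤ) :=
      Int.natCast_dvd_natCast.2 ((Finset.dvd_prod_of_mem _ hp.1).mul_right _)
    obtain ⟨τ, hτ⟩ := hsev
    have n7 : (7 : ZMod p) ≠ 0 := by exact_mod_cast prime_cast_ne pp 7 (by norm_num) p7
    have hds := (h p).sq H.sqf hpd hpM (b := 7 * τ)
      (by push_cast; linear_combination 49 * hτ) (by
        have hτ0 : τ ≠ 0 := by
          rintro rfl; apply n7
          linear_combination -hτ
        exact mul_ne_zero n7 hτ0)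
    apply hns
    rw [hdu] at hds
    push_cast at hds
    obtain ⟨r, hr⟩ := hds
    obtain ⟨s, hs⟩ := husq p hp.1
    have hu0 : (u : ZMod p) ≠ 0 := by
      rw [Ne, ZMod.intCast_zmod_eq_zero_iff_dvd]; exact hu p hp.1
    have hs0 : s ≠ 0 := by rintro rfl; apply hu0; rw [hs]; ring
    refine ⟨r / s, ?_⟩
    rw [div_mul_div_comm, eq_div_iff (mul_ne_zero hs0 hs0), ← hs]
    push_cast
    exact hr
  · obtain ⟨pp, p8, p7, hsev⟩ := H.pr p (hJP hp)
    haveI : Fact p.Prime := ⟨pp⟩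
    have hdd : d = p * (((∏ q ∈ J.erase p, q : ℕ) : ℤ) * u) := by
      rw [hdu, ← Finset.mul_prod_erase J (fun q => q) hp]
      push_cast
      ring
    exact rt2 p8 p7 hsev (h p) hd H.sqf (erase_prod (hJP hp) m) hdd
      (sq_erase hJP hp (husq p (hJP hp)) hs) hR

end Pool.Agent.U115.TP
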